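import Pool.Agent.Lib.MP_9e57f8_al.Defs

/-!
# Basic facts on Fomin–Kirillov algebras: total generators, universal property
-/

namespace Pool.Agent.Lib.MP_9e57f8_al

variable {n : ℕ}

/-- `x_{ij}` for all pairs, with `x_{ii} = 0`. -/
noncomputable def xx (i j : Fin n) : FK n := if h : i ≠ j then x i j h else 0

lemma xx_self (i : Fin n) : xx i i = 0 := by simp [xx]

lemma xx_of_ne {i j : Fin n} (h : i ≠ j) : xx i j = x i j h := by simp [xx, h]

lemma quot_rel {a b : FreeAlgebra ℚ (Pair n)} (h : FKRel n a b) : quot n a = quot n b :=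
  RingQuot.mkAlgHom_rel ℚ h

lemma xx_anti (i j : Fin n) : xx i j = -xx j i := by
  by_cases h : i = j
  · subst h; simp [xx]
  · rw [xx_of_ne h, xx_of_ne (Ne.symm h)]
    have := quot_rel (FKRel.antisymm i j h)
    simpa [x] using this

lemma xx_sq (i j : Fin n) : xx i j * xx i j = 0 := by
  by_cases h : i = j
  · subst h; simp [xx]
  · rw [xx_of_ne h]
    have := quot_rel (FKRel.sq i j h)
    simpa [x] using this

lemma xx_comm {i j k l : Fin n} (hik : i ≠ k) (hil : i ≠ l) (hjk : j ≠ k) (hjl : j ≠ l) :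
    xx i j * xx k l = xx k l * xx i j := by
  by_cases h : i = j
  · subst h; simp [xx]
  by_cases h' : k = l
  · subst h'; simp [xx]
  · rw [xx_of_ne h, xx_of_ne h']
    have := quot_rel (FKRel.comm i j k l h h' hik hil hjk hjl)
    simpa [x] using this

lemma xx_tri {i j k : Fin n} (hij : i ≠ j) (hjk : j ≠ k) (hki : k ≠ i) :
    xx i j * xx j k + xx j k * xx k i + xx k i * xx i j = 0 := by
  rw [xx_of_ne hij, xx_of_ne hjk, xx_of_ne hki]
  have := quot_rel (FKRel.tri i j k hij hjk hki)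
  simpa [x] using this

section lift

variable {B : Type*} [Ring B] [Algebra ℚ B] (X : Fin n → Fin n → B)

/-- Universal property of `𝓔ₙ`. -/
noncomputable def liftE
    (h1 : ∀ i j, i ≠ j → X i j = -X j i)
    (h2 : ∀ i j, i ≠ j → X i j * X i j = 0)
    (h3 : ∀ i j k l, i ≠ j → k ≠ l → i ≠ k → i ≠ l → j ≠ k → j ≠ l →
      X i j * X k l = X k l * X i j)
    (h4 : ∀ i j k, i ≠ j → j ≠ k → k ≠ i →
      X i j * X j k + X j k * X k i + X k i * X i j = 0) : FK n →ₐ[ℚ] B :=
  (RingQuot.liftAlgHom ℚ ⟨FreeAlgebra.lift ℚ (fun p : Pair n => X p.1.1 p.1.2), by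
    intro a b hab
    cases hab with
    | antisymm i j h => simpa [gen] using h1 i j h
    | sq i j h => simpa [gen] using h2 i j h
    | comm i j k l hij hkl hik hil hjk hjl =>
      simpa [gen] using h3 i j k l hij hkl hik hil hjk hjl
    | tri i j k hij hjk hki => simpa [gen] using h4 i j k hij hjk hki⟩ :
    RingQuot (FKRel n) →ₐ[ℚ] B)

lemma liftE_xx (h1 : ∀ i j, i ≠ j → X i j = -X j i)
    (h2 : ∀ i j, i ≠ j → X i j * X i j = 0)
    (h3 : ∀ i j k l, i ≠ j → k ≠ l → i ≠ k → i ≠ l → j ≠ k → j ≠ l →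
      X i j * X k l = X k l * X i j)
    (h4 : ∀ i j k, i ≠ j → j ≠ k → k ≠ i →
      X i j * X j k + X j k * X k i + X k i * X i j = 0)
    {i j : Fin n} (h : i ≠ j) : liftE X h1 h2 h3 h4 (xx i j) = X i j := by
  rw [xx_of_ne h, x, gen]
  refine (RingQuot.liftAlgHom_mkAlgHom_apply ℚ _ _ _).trans ?_
  rw [FreeAlgebra.lift_ι_apply]

end lift

end Pool.Agent.Lib.MP_9e57f8_al
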