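import Pool.Agent.Lib.MP_9e57f8_al.Code

/-!
# The certificate checker: tables of normal forms and crossing certificates
-/

namespace Pool.Agent.Lib.MP_9e57f8_al

/-- packed signed word: `16 * word + (coefficient + 8)` -/
def unp (n : ℕ) : ℤ × ℕ := (Int.subNatNat (Nat.mod n 16) 8, Nat.div n 16)

/-- unpacking a list -/
def unps : List ℕ → P
  | [] => []
  | n :: t => unp n :: unps t

/-- search trees of normal forms (key, value, certificate) -/
inductive Tr : Type
  | lf : Tr
  | nd : Tr → ℕ → List ℕ → List ℕ → Tr → Tr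

/-- look up -/
def Tr.get : Tr → ℕ → List ℕ
  | .lf, n => [Nat.add (Nat.mul n 16) 9]
  | .nd l key val _ r, n =>
    cond (Nat.ble key n) (cond (Nat.ble n key) val (r.get n)) (l.get n)

/-- all nodes pass the test -/
def Tr.all (f : ℕ → List ℕ → List ℕ → Bool) : Tr → Bool
  | .lf => true
  | .nd l key val cert r => cond (f key val cert) (cond (l.all f) (r.all f) false) false

/-- the table `t` gives correct values for words of length `len` after `Ω` -/
def ValidT (Ω : FK 6) (t : Tr) (len : ℕ) : Prop :=
  ∀ n, Ω * evP len (unps (t.get n)) = Ω * evc len n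

lemma unp_default (n : ℕ) : unp (Nat.add (Nat.mul n 16) 9) = (1, n) := by
  have h1 : Nat.mod (Nat.add (Nat.mul n 16) 9) 16 = 9 := by
    change (n * 16 + 9) % 16 = 9
    omega
  have h2 : Nat.div (Nat.add (Nat.mul n 16) 9) 16 = n := by
    change (n * 16 + 9) / 16 = n
    omega
  rw [unp, h1, h2]
  rfl

lemma validT_lf (Ω : FK 6) (len : ℕ) : ValidT Ω .lf len := by
  intro n
  rw [Tr.get, unps, unps, unp_default, evP_cons, evP_nil]
  simp

lemma validT_of_all {Ω : FK 6} {len : ℕ} {f : ℕ → List ℕ → List ℕ → Bool}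
    (hf : ∀ key val cert, f key val cert = true →
      Ω * evP len (unps val) = Ω * evc len key) :
    ∀ t : Tr, t.all f = true → ValidT Ω t len := by
  intro t
  induction t with
  | lf => intro _; exact validT_lf Ω len
  | nd l key val cert r ihl ihr =>
    intro h n
    rw [Tr.all] at h
    cases h1 : f key val cert with
    | false => rw [h1] at h; simp at h
    | true =>
      cases h2 : l.all f with
      | false => rw [h1, h2] at h; simp at h
      | true =>
        rw [h1, h2, cond_true, cond_true] at h
        rw [Tr.get]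
        cases h3 : Nat.ble key n with
        | false => rw [cond_false]; exact ihl h2 n
        | true =>
          cases h4 : Nat.ble n key with
          | false => rw [cond_true, cond_false]; exact ihr h n
          | true =>
            have e : key = n := le_antisymm (Nat.le_of_ble_eq_true h3) (Nat.le_of_ble_eq_true h4)
            rw [cond_true, cond_true, ← e]
            exact hf key val cert h1

/-- add `c` times a packed sum -/
def addS (c : ℤ) : List ℕ → P → P
  | [], acc => acc
  | n :: t, acc => (c * (unp n).1, (unp n).2) :: addS c t acc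

lemma evP_addS (k : ℕ) (c : ℤ) (l : List ℕ) (acc : P) :
    evP k (addS c l acc) = c • evP k (unps l) + evP k acc := by
  induction l with
  | nil => simp [addS, unps, evP_nil]
  | cons n t ih =>
    rw [addS, evP_cons, ih, unps, evP_cons, smul_add, smul_smul]
    abel

/-- right multiplication by a letter, with normalisation -/
def mulL (t : Tr) (a : ℕ) : P → P
  | [] => []
  | x :: xs => addS x.1 (t.get (Nat.add (Nat.mul x.2 16) (Nat.mod a 16))) (mulL t a xs)

lemma mulL_spec {Ω : FK 6} {t : Tr} {len : ℕ} (h : ValidT Ω t (len + 1)) (a : ℕ) (p : P) :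
    Ω * evP (len + 1) (mulL t a p) = Ω * evP len p * evc 1 a := by
  induction p with
  | nil => simp [mulL, evP_nil]
  | cons x xs ih =>
    rw [mulL, evP_addS, mul_add, ih, mul_smul_comm, h, evP_cons]
    have e : evc (len + 1) (Nat.add (Nat.mul x.2 16) (Nat.mod a 16)) = evc len x.2 * evc 1 a := by
      have := evc_cat len 1 x.2 a
      rw [pow_one] at this
      exact this
    rw [e, mul_add, add_mul, mul_smul_comm, smul_mul_assoc]
    simp only [mul_assoc]

/-- left multiplication by a letter, with normalisation -/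
def mulR (t : Tr) (len a : ℕ) : P → P
  | [] => []
  | x :: xs =>
    addS x.1 (t.get (Nat.add (Nat.mul a (Nat.pow 16 len)) (Nat.mod x.2 (Nat.pow 16 len))))
      (mulR t len a xs)

lemma mulR_spec {t : Tr} {len : ℕ} (h : ValidT 1 t (len + 1)) (a : ℕ) (p : P) :
    evP (len + 1) (mulR t len a p) = evc 1 a * evP len p := by
  induction p with
  | nil => simp [mulR, evP_nil]
  | cons x xs ih =>
    have h' := fun n => h n
    simp only [one_mul] at h'
    rw [mulR, evP_addS, ih, h', evP_cons]
    have e : evc (len + 1)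
        (Nat.add (Nat.mul a (Nat.pow 16 len)) (Nat.mod x.2 (Nat.pow 16 len)))
        = evc 1 a * evc len x.2 := by
      have := evc_cat 1 len a x.2
      rw [Nat.add_comm 1 len] at this
      exact this
    rw [e, mul_add, mul_smul_comm]

/-- multiplication by a word on the right -/
def goL (LT : ℕ → Tr) : ℕ → ℕ → ℕ → P → P
  | 0, _, _, p => p
  | k + 1, len, w, p => goL LT k (Nat.succ len) (Nat.mod w (Nat.pow 16 k))
      (mulL (LT (Nat.succ len)) (Nat.div w (Nat.pow 16 k)) p)

lemma goL_spec {Ω : FK 6} {LT : ℕ → Tr} (k : ℕ) : ∀ (len w : ℕ) (p : P),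
    (∀ i, len < i → i ≤ len + k → ValidT Ω (LT i) i) →
    Ω * evP (len + k) (goL LT k len w p) = Ω * evP len p * evc k w := by
  induction k with
  | zero => intro len w p _; simp [goL, evc_zero]
  | succ k ih =>
    intro len w p h
    have e1 := ih (len + 1) (w % 16 ^ k) (mulL (LT (len + 1)) (w / 16 ^ k) p)
      (fun i h1 h2 => h i (by omega) (by omega))
    rw [mulL_spec (h (len + 1) (by omega) (by omega))] at e1
    have e2 : evc (k + 1) w = evc 1 (w / 16 ^ k) * evc k (w % 16 ^ k) := by
      rw [Nat.add_comm k 1]; exact evc_add 1 k w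
    rw [e2, ← mul_assoc]
    have e3 : len + (k + 1) = len + 1 + k := by omega
    rw [e3]
    exact e1

/-- multiplication by a word on the left -/
def goR (RT : ℕ → Tr) : ℕ → ℕ → ℕ → P → P
  | 0, _, _, p => p
  | k + 1, len, w, p => goR RT k (Nat.succ len) (Nat.div w 16)
      (mulR (RT (Nat.succ len)) len (Nat.mod w 16) p)

lemma goR_spec {RT : ℕ → Tr} (k : ℕ) : ∀ (len w : ℕ) (p : P),
    (∀ i, len < i → i ≤ len + k → ValidT 1 (RT i) i) →
    evP (len + k) (goR RT k len w p) = evc k w * evP len p := by
  induction k with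
  | zero => intro len w p _; simp [goR, evc_zero]
  | succ k ih =>
    intro len w p h
    have e1 := ih (len + 1) (w / 16) (mulR (RT (len + 1)) len (w % 16) p)
      (fun i h1 h2 => h i (by omega) (by omega))
    rw [mulR_spec (h (len + 1) (by omega) (by omega))] at e1
    rw [evc_succ, mul_assoc]
    have e4 : evc 1 (w % 16) = lx (w % 16) := by rw [evc_one, Nat.mod_mod]
    rw [← e4]
    have e3 : len + (k + 1) = len + 1 + k := by omega
    rw [e3]
    exact e1

/-- one row of a product -/
def rowP (M : ℕ) (c : ℤ) (b : ℕ) (acc : P) : P → P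
  | [] => acc
  | y :: ys => (c * y.1,
      Nat.add (Nat.mul b (Nat.pow 16 M)) (Nat.mod y.2 (Nat.pow 16 M))) :: rowP M c b acc ys

lemma evP_rowP (N M : ℕ) (c : ℤ) (b : ℕ) (acc R : P) :
    evP (N + M) (rowP M c b acc R) = c • (evc N b * evP M R) + evP (N + M) acc := by
  induction R with
  | nil => simp [rowP, evP_nil]
  | cons y ys ih =>
    have e : evc (N + M) (Nat.add (Nat.mul b (Nat.pow 16 M)) (Nat.mod y.2 (Nat.pow 16 M)))
        = evc N b * evc M y.2 := evc_cat N M b y.2
    rw [rowP, evP_cons, ih, e, evP_cons, mul_add, mul_smul_comm, smul_add, smul_smul]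
    abel

/-- product of two formal sums -/
def prodP (M : ℕ) (c : ℤ) (R acc : P) : P → P
  | [] => acc
  | x :: xs => rowP M (c * x.1) x.2 (prodP M c R acc xs) R

lemma evP_prodP (N M : ℕ) (c : ℤ) (R acc L : P) :
    evP (N + M) (prodP M c R acc L) = c • (evP N L * evP M R) + evP (N + M) acc := by
  induction L with
  | nil => simp [prodP, evP_nil]
  | cons x xs ih =>
    rw [prodP, evP_rowP, ih, evP_cons, add_mul, smul_mul_assoc, smul_add, smul_smul]
    abel

/-- expansion of `c u (rel) v` with `u` of length `N - k`, `v` of length `M - l` -/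
def expT (LT RT : ℕ → Tr) (N M k l u v : ℕ) (c : ℤ) (acc : P) : List ℕ → P
  | [] => acc
  | n :: t => prodP M (c * (unp n).1)
      (goR RT l (Nat.sub M l) (Nat.mod (unp n).2 (Nat.pow 16 l)) [(1, v)])
      (expT LT RT N M k l u v c acc t)
      (goL LT k (Nat.sub N k) (Nat.div (unp n).2 (Nat.pow 16 l)) [(1, u)])

lemma expT_spec {Ω : FK 6} {LT RT : ℕ → Tr} {N M k l : ℕ} (u v : ℕ) (c : ℤ) (acc : P)
    (hk : k ≤ N) (hl : l ≤ M)
    (hL : ∀ i, i ≤ N → ValidT Ω (LT i) i) (hR : ∀ i, i ≤ M → ValidT 1 (RT i) i)
    (p : List ℕ) :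
    Ω * evP (N + M) (expT LT RT N M k l u v c acc p)
      = c • (Ω * evc (N - k) u * evP (k + l) (unps p) * evc (M - l) v)
        + Ω * evP (N + M) acc := by
  induction p with
  | nil => simp [expT, unps, evP_nil]
  | cons n t ih =>
    have h1 := goL_spec (Ω := Ω) (LT := LT) k (N - k) ((unp n).2 / 16 ^ l) [(1, u)]
      (fun i _ h2 => hL i (by omega))
    have h2 := goR_spec (RT := RT) l (M - l) ((unp n).2 % 16 ^ l) [(1, v)]
      (fun i _ h2 => hR i (by omega))
    rw [Nat.sub_add_cancel hk, evP_cons, evP_nil, one_smul, add_zero] at h1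
    rw [Nat.sub_add_cancel hl, evP_cons, evP_nil, one_smul, add_zero] at h2
    rw [expT, evP_prodP, mul_add, ih, mul_smul_comm, ← mul_assoc]
    change (c * (unp n).1) • (Ω * evP N (goL LT k (N - k) ((unp n).2 / 16 ^ l) [(1, u)]) *
      evP M (goR RT l (M - l) ((unp n).2 % 16 ^ l) [(1, v)])) + _ = _
    rw [h1, h2, unps, evP_cons, mul_add, add_mul, smul_add, evc_add k l (unp n).2]
    rw [mul_smul_comm, smul_mul_assoc, smul_smul]
    simp only [mul_assoc]
    abel

/-- libraries of relations: `(degree, packed sum)` -/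
abbrev Lb : Type := ℕ → ℕ × List ℕ

/-- all relations of the library hold -/
def LbOK (L : Lb) : Prop := ∀ i, evP (L i).1 (unps (L i).2) = 0

/-- packed columns -/
def colC (n : ℕ) : ℤ := Int.subNatNat (Nat.mod n 64) 32
/-- relation index -/
def colR (n : ℕ) : ℕ := Nat.mod (Nat.div n 64) 256
/-- number of letters of the relation to the left of the cut -/
def colK (n : ℕ) : ℕ := Nat.mod (Nat.div n 16384) 16
/-- left word -/
def colU (n : ℕ) : ℕ := Nat.mod (Nat.div n 262144) 16777216
/-- right word -/
def colV (n : ℕ) : ℕ := Nat.div (Nat.div n 262144) 16777216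

/-- bounds test of a column -/
def colOK (L : Lb) (N M n : ℕ) : Bool :=
  cond (Nat.ble (colK n) N) (cond (Nat.ble (colK n) (L (colR n)).1)
    (Nat.ble (Nat.sub (L (colR n)).1 (colK n)) M) false) false

/-- expansion of a list of columns; `none`-like failure is signalled by a bad term -/
def expC (L : Lb) (LT RT : ℕ → Tr) (N M : ℕ) (acc : P) : List ℕ → P
  | [] => acc
  | n :: t => expT LT RT N M (colK n) (Nat.sub (L (colR n)).1 (colK n)) (colU n) (colV n)
      (colC n) (expC L LT RT N M acc t) (L (colR n)).2

/-- all columns are in bounds -/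
def allOK (L : Lb) (N M : ℕ) : List ℕ → Bool
  | [] => true
  | n :: t => cond (colOK L N M n) (allOK L N M t) false

lemma expC_spec {Ω : FK 6} {L : Lb} (hLb : LbOK L) {LT RT : ℕ → Tr} {N M : ℕ}
    (hL : ∀ i, i ≤ N → ValidT Ω (LT i) i) (hR : ∀ i, i ≤ M → ValidT 1 (RT i) i)
    (acc : P) (cols : List ℕ) (h : allOK L N M cols = true) :
    Ω * evP (N + M) (expC L LT RT N M acc cols) = Ω * evP (N + M) acc := by
  induction cols with
  | nil => rfl
  | cons n t ih =>
    rw [allOK] at h
    cases h0 : colOK L N M n with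
    | false => rw [h0] at h; simp at h
    | true =>
      rw [h0, cond_true] at h
      rw [colOK] at h0
      cases h1 : Nat.ble (colK n) N with
      | false => rw [h1] at h0; simp at h0
      | true =>
        cases h2 : Nat.ble (colK n) (L (colR n)).1 with
        | false => rw [h1, h2] at h0; simp at h0
        | true =>
          rw [h1, h2, cond_true, cond_true] at h0
          have b1 := Nat.le_of_ble_eq_true h1
          have b2 := Nat.le_of_ble_eq_true h2
          have b3 := Nat.le_of_ble_eq_true h0
          rw [expC, expT_spec _ _ _ _ b1 b3 hL hR, ih h]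
          have e : colK n + Nat.sub (L (colR n)).1 (colK n) = (L (colR n)).1 :=
            Nat.add_sub_cancel' b2
          rw [e, hLb]
          simp

/-- test for a node of a table -/
def chkN (L : Lb) (LT RT : ℕ → Tr) (N M fuel key : ℕ) (val cert : List ℕ) : Bool :=
  cond (allOK L N M cert) (isE (nrm fuel (expC L LT RT N M (addS 1 val [(-1, key)]) cert))) false

lemma chkN_spec {Ω : FK 6} {L : Lb} (hLb : LbOK L) {LT RT : ℕ → Tr} {N M fuel key : ℕ}
    {val cert : List ℕ}
    (hL : ∀ i, i ≤ N → ValidT Ω (LT i) i) (hR : ∀ i, i ≤ M → ValidT 1 (RT i) i)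
    (h : chkN L LT RT N M fuel key val cert = true) :
    Ω * evP (N + M) (unps val) = Ω * evc (N + M) key := by
  rw [chkN] at h
  cases h1 : allOK L N M cert with
  | false => rw [h1] at h; simp at h
  | true =>
    rw [h1, cond_true] at h
    have e := evP_of_isE (k := N + M) h
    have e2 := expC_spec (Ω := Ω) hLb hL hR (addS 1 val [(-1, key)]) cert h1
    rw [e, evP_addS, evP_cons, evP_nil] at e2
    rw [mul_zero, mul_add, one_smul, neg_smul, one_smul, add_zero, mul_neg] at e2
    exact eq_of_sub_eq_zero (by rw [sub_eq_add_neg]; exact e2.symm)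

/-- test for `den • Ω * target = 0` -/
def chkX (L : Lb) (LT RT : ℕ → Tr) (N M fuel : ℕ) (den : ℤ) (target cols : List ℕ) : Bool :=
  cond (allOK L N M cols)
    (isE (nrm fuel (expC L LT RT N M (expT LT RT N M N M 0 0 den [] target) cols))) false

lemma chkX_spec {Ω : FK 6} {L : Lb} (hLb : LbOK L) {LT RT : ℕ → Tr} {N M fuel : ℕ} {den : ℤ}
    {target cols : List ℕ} (hden : den ≠ 0)
    (hL : ∀ i, i ≤ N → ValidT Ω (LT i) i) (hR : ∀ i, i ≤ M → ValidT 1 (RT i) i)
    (h : chkX L LT RT N M fuel den target cols = true) :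
    Ω * evP (N + M) (unps target) = 0 := by
  rw [chkX] at h
  cases h1 : allOK L N M cols with
  | false => rw [h1] at h; simp at h
  | true =>
    rw [h1, cond_true] at h
    have e := evP_of_isE (k := N + M) h
    have e2 := expC_spec (Ω := Ω) hLb hL hR (expT LT RT N M N M 0 0 den [] target) cols h1
    rw [e, expT_spec 0 0 den [] le_rfl le_rfl hL hR, Nat.sub_self, Nat.sub_self, evc_zero,
      evP_nil] at e2
    simp only [mul_zero, mul_one, add_zero] at e2
    have e3 : (den : ℚ) • (Ω * evP (N + M) (unps target)) = 0 := by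
      rw [Int.cast_smul_eq_zsmul]; exact e2.symm
    rcases smul_eq_zero.1 e3 with h3 | h3
    · exact absurd (by exact_mod_cast h3) hden
    · exact h3

end Pool.Agent.Lib.MP_9e57f8_al
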