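import Pool.Agent.Lib.MP_9e57f8_al.Tables

/-!
# Left table, words of length 5 (check)
-/

namespace Pool.Agent.Lib.MP_9e57f8_al

lemma lj5_all : lj5.all (chkN lib0.get LJ5 (fun _ => .lf) 4 1 6) = true := by
  decide +kernel

end Pool.Agent.Lib.MP_9e57f8_al
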