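import Pool.Agent.Lib.MP_9e57f8_al.Tables

/-!
# Right table, words of length 5 (check)
-/

namespace Pool.Agent.Lib.MP_9e57f8_al

lemma rt5_all : rt5.all (chkN lib0.get (fun _ => .lf) RT5 1 4 6) = true := by
  decide +kernel

end Pool.Agent.Lib.MP_9e57f8_al
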