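import Pool.Agent.Lib.MP_9e57f8_al.Tables

/-!
# Tables for short words (checks)
-/

namespace Pool.Agent.Lib.MP_9e57f8_al

lemma rt2_all : rt2.all (chkN lib0.get (fun _ => .lf) RT2 1 1 6) = true := by
  decide +kernel

lemma rt3_all : rt3.all (chkN lib0.get (fun _ => .lf) RT3 1 2 6) = true := by
  decide +kernel

lemma lj2_all : lj2.all (chkN lib0.get LJ2 (fun _ => .lf) 1 1 6) = true := by
  decide +kernel

lemma lj3_all : lj3.all (chkN lib0.get LJ3 (fun _ => .lf) 2 1 6) = true := by
  decide +kernel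

lemma lj4_all : lj4.all (chkN lib0.get LJ4 (fun _ => .lf) 3 1 6) = true := by
  decide +kernel

lemma lf2_all : lf2.all (chkN lib0.get LF2 (fun _ => .lf) 1 1 6) = true := by
  decide +kernel

lemma lf3_all : lf3.all (chkN lib0.get LF3 (fun _ => .lf) 2 1 6) = true := by
  decide +kernel

lemma lf4_all : lf4.all (chkN lib0.get LF4 (fun _ => .lf) 3 1 6) = true := by
  decide +kernel

lemma lf5_all : lf5.all (chkN lib0.get LF5 (fun _ => .lf) 4 1 6) = true := by
  decide +kernel

end Pool.Agent.Lib.MP_9e57f8_al
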