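import Pool.Agent.Lib.MP_9e57f8_al.Nabla

/-!
# Words of `𝓔₆` coded by natural numbers, and the certificate checker
-/

namespace Pool.Agent.Lib.MP_9e57f8_al

/-- the fifteen letters of `𝓔₆` -/
def ltr : ℕ → Letter 6
  | 1 => (2, 4)
  | 2 => (3, 4)
  | 3 => (2, 5)
  | 4 => (3, 5)
  | 5 => (4, 5)
  | 6 => (0, 4)
  | 7 => (1, 4)
  | 8 => (0, 5)
  | 9 => (1, 5)
  | 10 => (2, 3)
  | 11 => (0, 2)
  | 12 => (0, 3)
  | 13 => (1, 2)
  | 14 => (1, 3)
  | 15 => (0, 1)
  | _ => (0, 0)

/-- the generator with code `n` -/
noncomputable def lx (n : ℕ) : FK 6 := xx (ltr n).1 (ltr n).2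

/-- the word of length `k` coded by `n` (base 16, last letter = lowest digit) -/
def dec : ℕ → ℕ → List (Letter 6)
  | 0, _ => []
  | k + 1, n => dec k (n / 16) ++ [ltr (n % 16)]

/-- evaluation of a coded word -/
noncomputable def evc (k n : ℕ) : FK 6 := evW (dec k n)

lemma evW_append {n : ℕ} (u v : List (Letter n)) : evW (u ++ v) = evW u * evW v := by
  simp [evW]

lemma evc_zero (n : ℕ) : evc 0 n = 1 := by simp [evc, dec, evW]

lemma evc_succ (k n : ℕ) : evc (k + 1) n = evc k (n / 16) * lx (n % 16) := by
  rw [evc, dec, evW_append]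
  simp [evc, evW, lx]

lemma evc_one (n : ℕ) : evc 1 n = lx (n % 16) := by
  rw [evc_succ, evc_zero, one_mul]

lemma evc_add (k l n : ℕ) : evc (k + l) n = evc k (n / 16 ^ l) * evc l (n % 16 ^ l) := by
  induction l generalizing n with
  | zero => simp [evc_zero]
  | succ l ih =>
    rw [← add_assoc, evc_succ, ih, evc_succ]
    have h1 : n / 16 / 16 ^ l = n / 16 ^ (l + 1) := by
      rw [Nat.div_div_eq_div_mul, pow_succ, mul_comm]
    have h2 : n / 16 % 16 ^ l = n % 16 ^ (l + 1) / 16 := by
      rw [pow_succ, mul_comm, Nat.mod_mul_right_div_self]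
    have h3 : n % 16 ^ (l + 1) % 16 = n % 16 := by
      rw [pow_succ, mul_comm, Nat.mod_mul_right_mod]
    rw [h1, h2, h3, mul_assoc]

lemma evc_mod (k n : ℕ) : evc k (n % 16 ^ k) = evc k n := by
  have h := evc_add 0 k n
  rw [zero_add, evc_zero, one_mul] at h
  exact h.symm

lemma evc_cat (k l a b : ℕ) : evc (k + l) (a * 16 ^ l + b % 16 ^ l) = evc k a * evc l b := by
  have hp : 0 < 16 ^ l := by positivity
  rw [evc_add, Nat.add_comm (a * 16 ^ l), Nat.add_mul_div_right _ _ hp,
    Nat.div_eq_of_lt (Nat.mod_lt _ hp), zero_add, Nat.add_mul_mod_self_right, Nat.mod_mod, evc_mod]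

/-- formal sums of words -/
abbrev P : Type := List (ℤ × ℕ)

/-- evaluation of a formal sum of words of length `k` -/
noncomputable def evP (k : ℕ) (p : P) : FK 6 := (p.map fun t => t.1 • evc k t.2).sum

lemma evP_nil (k : ℕ) : evP k [] = 0 := rfl

lemma evP_cons (k : ℕ) (t : ℤ × ℕ) (p : P) : evP k (t :: p) = t.1 • evc k t.2 + evP k p := by
  simp [evP]

lemma evP_append (k : ℕ) (p q : P) : evP k (p ++ q) = evP k p + evP k q := by
  simp [evP]

/-! ### sorting formal sums -/

/-- is the integer zero -/
def isz : ℤ → Bool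
  | .ofNat n => Nat.beq n 0
  | .negSucc _ => false

lemma isz_spec {c : ℤ} (h : isz c = true) : c = 0 := by
  cases c with
  | ofNat n =>
    have : n = 0 := Nat.eq_of_beq_eq_true h
    subst this; rfl
  | negSucc n => simp [isz] at h

/-- cons, dropping zero -/
def zcons (c : ℤ) (n : ℕ) (r : P) : P := cond (isz c) r ((c, n) :: r)

lemma evP_zcons (k : ℕ) (c : ℤ) (n : ℕ) (r : P) :
    evP k (zcons c n r) = c • evc k n + evP k r := by
  unfold zcons
  cases h : isz c with
  | false => simp [evP_cons]
  | true => rw [isz_spec h]; simp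

/-- inner loop of the merge -/
def mergeAux (a : ℤ × ℕ) (f : P → P) (full : P) : P → P
  | [] => full
  | b :: t => cond (Nat.ble a.2 b.2)
      (cond (Nat.ble b.2 a.2) (zcons (a.1 + b.1) a.2 (f t)) (a :: f (b :: t)))
      (b :: mergeAux a f full t)

/-- merge of sorted formal sums -/
def merge : P → P → P
  | [] => fun q => q
  | a :: t => mergeAux a (merge t) (a :: t)

lemma evP_merge (k : ℕ) (p q : P) : evP k (merge p q) = evP k p + evP k q := by
  induction p generalizing q with
  | nil => simp [merge, evP_nil]
  | cons a t ih =>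
    rw [merge]
    induction q with
    | nil => simp [mergeAux, evP_nil]
    | cons b s ihs =>
      rw [mergeAux]
      cases h1 : Nat.ble a.2 b.2 with
      | false =>
        simp only [cond_false, evP_cons, ihs]
        abel
      | true =>
        cases h2 : Nat.ble b.2 a.2 with
        | false =>
          simp only [cond_true, cond_false, evP_cons, ih]
          abel
        | true =>
          have h : a.2 = b.2 := le_antisymm (Nat.le_of_ble_eq_true h1) (Nat.le_of_ble_eq_true h2)
          simp only [cond_true, evP_zcons, ih, evP_cons, h, add_smul]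
          abel

/-- one pass of pairwise merging -/
def pass : List P → List P
  | a :: b :: t => merge a b :: pass t
  | [a] => [a]
  | [] => []

/-- sum of the evaluations -/
noncomputable def evPs (k : ℕ) (l : List P) : FK 6 := (l.map (evP k)).sum

lemma evPs_pass (k : ℕ) : ∀ l : List P, evPs k (pass l) = evPs k l
  | [] => rfl
  | [_] => rfl
  | a :: b :: t => by
    have ih := evPs_pass k t
    simp only [evPs, pass, List.map_cons, List.sum_cons, evP_merge] at ih ⊢
    rw [ih]; abel

/-- iterated passes -/
def passes : ℕ → List P → List P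
  | 0, l => l
  | n + 1, l => passes n (pass l)

lemma evPs_passes (k n : ℕ) (l : List P) : evPs k (passes n l) = evPs k l := by
  induction n generalizing l with
  | zero => rfl
  | succ n ih => rw [passes, ih, evPs_pass]

/-- final merge -/
def mergeAll : List P → P
  | [] => []
  | a :: t => merge a (mergeAll t)

lemma evP_mergeAll (k : ℕ) (l : List P) : evP k (mergeAll l) = evPs k l := by
  induction l with
  | nil => rfl
  | cons a t ih =>
    rw [mergeAll, evP_merge, ih]
    simp [evPs]

/-- singletons -/
def singles : P → List P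
  | [] => []
  | a :: t => [a] :: singles t

lemma evPs_singles (k : ℕ) (p : P) : evPs k (singles p) = evP k p := by
  induction p with
  | nil => rfl
  | cons a t ih =>
    simp only [evPs] at ih ⊢
    simp only [singles, List.map_cons, List.sum_cons, ih, evP_cons, evP_nil, add_zero]

/-- normal form of a formal sum -/
def nrm (fuel : ℕ) (p : P) : P := mergeAll (passes fuel (singles p))

lemma evP_nrm (k fuel : ℕ) (p : P) : evP k (nrm fuel p) = evP k p := by
  rw [nrm, evP_mergeAll, evPs_passes, evPs_singles]

/-- emptiness test -/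
def isE : P → Bool
  | [] => true
  | _ :: _ => false

lemma evP_of_isE {k fuel : ℕ} {p : P} (h : isE (nrm fuel p) = true) : evP k p = 0 := by
  rw [← evP_nrm k fuel p]
  cases hn : nrm fuel p with
  | nil => rfl
  | cons a t => rw [hn] at h; simp [isE] at h

end Pool.Agent.Lib.MP_9e57f8_al
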