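import Pool.Agent.Lib.MP_9e57f8_al.Words

/-!
# A criterion for the multiplication map not to be injective
-/

open scoped TensorProduct
open Equiv (swap)

namespace Pool.Agent.Lib.MP_9e57f8_al

variable {n : ℕ}

lemma xx_mem {G : SimpleGraph (Fin n)} {i j : Fin n} (h : G.Adj i j) :
    xx i j ∈ graphSubalgebra G := by
  rw [xx_of_ne h.ne]
  exact Algebra.subset_adjoin ⟨i, j, h, rfl⟩

/-- `E₁ ⊗ A` inside `A ⊗ A` -/
noncomputable def L1 (G : SimpleGraph (Fin n)) : Submodule ℚ (TT n) :=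
  LinearMap.range (TensorProduct.map (Subalgebra.toSubmodule (graphSubalgebra G)).subtype
    (LinearMap.id : FK n →ₗ[ℚ] FK n))

/-- `A ⊗ E₂` inside `A ⊗ A` -/
noncomputable def L2 (G : SimpleGraph (Fin n)) : Submodule ℚ (TT n) :=
  LinearMap.range (TensorProduct.map (LinearMap.id : FK n →ₗ[ℚ] FK n)
    (Subalgebra.toSubmodule (graphSubalgebra G)).subtype)

lemma tmul_mem_L1 {G : SimpleGraph (Fin n)} {a : FK n} (ha : a ∈ graphSubalgebra G) (b : FK n) :
    a ⊗ₜ[ℚ] b ∈ L1 G :=
  ⟨(⟨a, ha⟩ : Subalgebra.toSubmodule (graphSubalgebra G)) ⊗ₜ[ℚ] b, by simp⟩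

lemma tmul_mem_L2 {G : SimpleGraph (Fin n)} {b : FK n} (hb : b ∈ graphSubalgebra G) (a : FK n) :
    a ⊗ₜ[ℚ] b ∈ L2 G :=
  ⟨a ⊗ₜ[ℚ] (⟨b, hb⟩ : Subalgebra.toSubmodule (graphSubalgebra G)), by simp⟩

lemma one_mem_L1 (G : SimpleGraph (Fin n)) : (1 : TT n) ∈ L1 G := by
  rw [Algebra.TensorProduct.one_def]
  exact tmul_mem_L1 (one_mem _) _

lemma one_mem_L2 (G : SimpleGraph (Fin n)) : (1 : TT n) ∈ L2 G := by
  rw [Algebra.TensorProduct.one_def]
  exact tmul_mem_L2 (one_mem _) _

lemma lt_mul_mem_L1 {G : SimpleGraph (Fin n)} {a : FK n} (ha : a ∈ graphSubalgebra G) {t : TT n}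
    (ht : t ∈ L1 G) : lt a * t ∈ L1 G := by
  obtain ⟨s, rfl⟩ := ht
  induction s using TensorProduct.induction_on with
  | zero => simp
  | tmul u v =>
    have : lt a * (TensorProduct.map (Subalgebra.toSubmodule (graphSubalgebra G)).subtype
      (LinearMap.id : FK n →ₗ[ℚ] FK n)) (u ⊗ₜ[ℚ] v) = (a * (u : FK n)) ⊗ₜ[ℚ] v := by
      simp [lt]
    rw [this]
    exact tmul_mem_L1 (mul_mem ha u.2) _
  | add s t hs ht => rw [map_add, mul_add]; exact add_mem hs ht

lemma mul_rt_mem_L1 {G : SimpleGraph (Fin n)} (b : FK n) {t : TT n}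
    (ht : t ∈ L1 G) : t * rt b ∈ L1 G := by
  obtain ⟨s, rfl⟩ := ht
  induction s using TensorProduct.induction_on with
  | zero => simp
  | tmul u v =>
    have : (TensorProduct.map (Subalgebra.toSubmodule (graphSubalgebra G)).subtype
      (LinearMap.id : FK n →ₗ[ℚ] FK n)) (u ⊗ₜ[ℚ] v) * rt b = (u : FK n) ⊗ₜ[ℚ] (v * b) := by
      simp [rt]
    rw [this]
    exact tmul_mem_L1 u.2 _
  | add s t hs ht => rw [map_add, add_mul]; exact add_mem hs ht

lemma lt_mul_mem_L2 {G : SimpleGraph (Fin n)} (a : FK n) {t : TT n}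
    (ht : t ∈ L2 G) : lt a * t ∈ L2 G := by
  obtain ⟨s, rfl⟩ := ht
  induction s using TensorProduct.induction_on with
  | zero => simp
  | tmul u v =>
    have : lt a * (TensorProduct.map (LinearMap.id : FK n →ₗ[ℚ] FK n)
      (Subalgebra.toSubmodule (graphSubalgebra G)).subtype) (u ⊗ₜ[ℚ] v)
        = (a * u) ⊗ₜ[ℚ] (v : FK n) := by
      simp [lt]
    rw [this]
    exact tmul_mem_L2 v.2 _
  | add s t hs ht => rw [map_add, mul_add]; exact add_mem hs ht

lemma mul_rt_mem_L2 {G : SimpleGraph (Fin n)} {b : FK n} (hb : b ∈ graphSubalgebra G) {t : TT n}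
    (ht : t ∈ L2 G) : t * rt b ∈ L2 G := by
  obtain ⟨s, rfl⟩ := ht
  induction s using TensorProduct.induction_on with
  | zero => simp
  | tmul u v =>
    have : (TensorProduct.map (LinearMap.id : FK n →ₗ[ℚ] FK n)
      (Subalgebra.toSubmodule (graphSubalgebra G)).subtype) (u ⊗ₜ[ℚ] v) * rt b
        = u ⊗ₜ[ℚ] ((v : FK n) * b) := by
      simp [rt]
    rw [this]
    exact tmul_mem_L2 (mul_mem v.2 hb) _
  | add s t hs ht => rw [map_add, add_mul]; exact add_mem hs ht

/-- `(E₁ ⊗ A) ∩ (A ⊗ E₂) = E₁ ⊗ E₂`. -/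
lemma exists_of_mem {G₁ G₂ : SimpleGraph (Fin n)} {z : TT n} (h1 : z ∈ L1 G₁) (h2 : z ∈ L2 G₂) :
    ∃ t : TensorProduct ℚ (graphSubalgebra G₁) (graphSubalgebra G₂),
      TensorProduct.map (Subalgebra.toSubmodule (graphSubalgebra G₁)).subtype
        (Subalgebra.toSubmodule (graphSubalgebra G₂)).subtype t = z := by
  obtain ⟨p1, hp1⟩ := LinearMap.exists_leftInverse_of_injective
    (Subalgebra.toSubmodule (graphSubalgebra G₁)).subtype (Submodule.ker_subtype _)
  obtain ⟨p2, hp2⟩ := LinearMap.exists_leftInverse_of_injective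
    (Subalgebra.toSubmodule (graphSubalgebra G₂)).subtype (Submodule.ker_subtype _)
  refine ⟨TensorProduct.map p1 p2 z, ?_⟩
  have e1 : TensorProduct.map ((Subalgebra.toSubmodule (graphSubalgebra G₁)).subtype ∘ₗ p1)
      (LinearMap.id : FK n →ₗ[ℚ] FK n) z = z := by
    obtain ⟨s, rfl⟩ := h1
    rw [← LinearMap.comp_apply, ← TensorProduct.map_comp, LinearMap.comp_assoc, hp1]
    simp
  have e2 : TensorProduct.map (LinearMap.id : FK n →ₗ[ℚ] FK n)
      ((Subalgebra.toSubmodule (graphSubalgebra G₂)).subtype ∘ₗ p2) z = z := by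
    obtain ⟨s, rfl⟩ := h2
    rw [← LinearMap.comp_apply, ← TensorProduct.map_comp, LinearMap.comp_assoc, hp2]
    simp
  calc (TensorProduct.map (Subalgebra.toSubmodule (graphSubalgebra G₁)).subtype
        (Subalgebra.toSubmodule (graphSubalgebra G₂)).subtype) (TensorProduct.map p1 p2 z)
      = TensorProduct.map ((Subalgebra.toSubmodule (graphSubalgebra G₁)).subtype ∘ₗ p1)
          ((Subalgebra.toSubmodule (graphSubalgebra G₂)).subtype ∘ₗ p2) z := by
        rw [← LinearMap.comp_apply, ← TensorProduct.map_comp]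
    _ = TensorProduct.map ((Subalgebra.toSubmodule (graphSubalgebra G₁)).subtype ∘ₗ p1)
          (LinearMap.id : FK n →ₗ[ℚ] FK n) (TensorProduct.map (LinearMap.id : FK n →ₗ[ℚ] FK n)
          ((Subalgebra.toSubmodule (graphSubalgebra G₂)).subtype ∘ₗ p2) z) := by
        rw [← LinearMap.comp_apply, ← TensorProduct.map_comp, LinearMap.comp_id,
          LinearMap.id_comp]
    _ = z := by rw [e2, e1]

lemma mu_eq {G₁ G₂ : SimpleGraph (Fin n)}
    (t : TensorProduct ℚ (graphSubalgebra G₁) (graphSubalgebra G₂)) :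
    mu G₁ G₂ t = mulT n (TensorProduct.map (Subalgebra.toSubmodule (graphSubalgebra G₁)).subtype
        (Subalgebra.toSubmodule (graphSubalgebra G₂)).subtype t) := by
  induction t using TensorProduct.induction_on with
  | zero => simp
  | tmul u v =>
    simp only [mu, mulT, Submodule.mulMap, TensorProduct.lift.tmul, TensorProduct.map_tmul,
      LinearMap.mul'_apply]
    rfl
  | add s t hs ht => rw [map_add, map_add, map_add, hs, ht]

lemma Zr_mem_L2 {G : SimpleGraph (Fin n)} (r : List (Letter n)) (hr : ∀ a ∈ r, G.Adj a.1 a.2) :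
    Zr r ∈ L2 G := by
  induction r with
  | nil => exact one_mem_L2 G
  | cons a r ih =>
    rw [Zr]
    have h := ih fun b hb => hr b (List.mem_cons_of_mem _ hb)
    exact sub_mem (mul_rt_mem_L2 (xx_mem (hr a List.mem_cons_self)) h) (lt_mul_mem_L2 _ h)

lemma Theta_evW_mem {G : SimpleGraph (Fin n)} (u : List (Letter n))
    (hu : ∀ a ∈ u, G.Adj a.1 a.2) (h : Equiv.Perm (Fin n)) :
    Theta n (evW u) (base n) h ∈ L1 G := by
  induction u generalizing h with
  | nil =>
    simp only [evW, List.map_nil, List.prod_nil, map_one, Module.End.one_apply, base]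
    by_cases hh : h = 1
    · subst hh; rw [Pi.single_eq_same]; exact one_mem_L1 G
    · rw [Pi.single_eq_of_ne hh]; exact zero_mem _
  | cons a u ih =>
    have e : evW (a :: u) = xx a.1 a.2 * evW u := by simp [evW]
    rw [e, map_mul, Module.End.mul_apply, Theta_xx, thetaOp_apply]
    have hu' := fun b hb => hu b (List.mem_cons_of_mem _ hb)
    exact sub_mem (mul_rt_mem_L1 _ (ih hu' _))
      (lt_mul_mem_L1 (xx_mem (hu a List.mem_cons_self)) (ih hu' _))

/-- The criterion. -/
theorem not_injective_of_words {G₁ G₂ : SimpleGraph (Fin n)}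
    (W U : List (ℚ × List (Letter n)))
    (hW : ∀ p ∈ W, ∀ a ∈ p.2, G₂.Adj a.1 a.2) (hne : ∀ p ∈ W, p.2 ≠ [])
    (hgrp : ∀ p ∈ W, grp p.2 = 1) (hU : ∀ p ∈ U, ∀ a ∈ p.2, G₁.Adj a.1 a.2)
    (hid : (W.map fun p => p.1 • Yr p.2).sum = (U.map fun p => p.1 • evW p.2).sum)
    (hnz : (W.map fun p => p.1 • Cr p.2).sum ≠ 0) :
    ¬ Function.Injective (mu G₁ G₂) := by
  intro hinj
  set z : TT n := (W.map fun p => p.1 • Zr p.2).sum with hz
  have hΘ : Theta n (W.map fun p => p.1 • Yr p.2).sum (base n) = Pi.single 1 z := by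
    rw [hz]
    clear hid hnz hz hW hne
    clear_value z
    induction W with
    | nil => simp
    | cons p W ih =>
      have h1 := hgrp p List.mem_cons_self
      have h2 := ih (fun q hq => hgrp q (List.mem_cons_of_mem _ hq))
      simp only [List.map_cons, List.sum_cons, map_add, LinearMap.add_apply, map_smul,
        LinearMap.smul_apply]
      rw [h2, Theta_Yr, h1, ← Pi.single_smul, ← Pi.single_add]
  have hz1 : z ∈ L1 G₁ := by
    have e : z = Theta n (W.map fun p => p.1 • Yr p.2).sum (base n) 1 := by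
      rw [hΘ, Pi.single_eq_same]
    rw [e, hid]
    clear hid hΘ e
    induction U with
    | nil => simp
    | cons p U ih =>
      simp only [List.map_cons, List.sum_cons, map_add, LinearMap.add_apply, map_smul,
        LinearMap.smul_apply, Pi.add_apply, Pi.smul_apply]
      exact add_mem (Submodule.smul_mem _ _ (Theta_evW_mem _ (hU p List.mem_cons_self) _))
        (ih fun q hq => hU q (List.mem_cons_of_mem _ hq))
  have hz2 : z ∈ L2 G₂ := by
    rw [hz]
    refine list_sum_mem fun t ht => ?_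
    obtain ⟨p, hp, rfl⟩ := List.mem_map.1 ht
    exact Submodule.smul_mem _ _ (Zr_mem_L2 _ (hW p hp))
  have hmul : mulT n z = 0 := by
    rw [hz, map_list_sum, List.map_map]
    refine List.sum_eq_zero fun t ht => ?_
    obtain ⟨p, hp, rfl⟩ := List.mem_map.1 ht
    simp only [Function.comp_apply, map_smul]
    cases h : p.2 with
    | nil => exact absurd h (hne p hp)
    | cons a r => rw [mulT_Zr, smul_zero]
  obtain ⟨t, ht⟩ := exists_of_mem hz1 hz2
  have h0 : mu G₁ G₂ t = mu G₁ G₂ 0 := by rw [mu_eq, ht, hmul, map_zero]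
  have ht0 : t = 0 := hinj h0
  have hz0 : z = 0 := by rw [← ht, ht0, map_zero]
  apply hnz
  have : epsL n z = (W.map fun p => p.1 • Cr p.2).sum := by
    rw [hz, map_list_sum, List.map_map]
    congr 1
    refine List.map_congr_left fun p _ => ?_
    simp [epsL_Zr]
  rw [← this, hz0, map_zero]

end Pool.Agent.Lib.MP_9e57f8_al
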