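import Pool.Agent.Lib.MP_9e57f8_al.Statement

/-!
# Fomin–Kirillov algebras and their graph subalgebras (working copies of the definitions)
-/

namespace Pool.Agent.Lib.MP_9e57f8_al

/-- The Fomin–Kirillov algebra `𝓔ₙ` over `ℚ`. -/
def FK (n : ℕ) : Type := RingQuot (FKRel n)

noncomputable instance (n : ℕ) : Ring (FK n) := inferInstanceAs (Ring (RingQuot (FKRel n)))

noncomputable instance (n : ℕ) : Algebra ℚ (FK n) :=
  inferInstanceAs (Algebra ℚ (RingQuot (FKRel n)))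

/-- The quotient map from the free algebra onto `𝓔ₙ`. -/
noncomputable def quot (n : ℕ) : FreeAlgebra ℚ (Pair n) →ₐ[ℚ] FK n :=
  RingQuot.mkAlgHom ℚ (FKRel n)

/-- The generator `x_{ij}` of `𝓔ₙ`. -/
noncomputable def x {n : ℕ} (i j : Fin n) (h : i ≠ j) : FK n := quot n (gen i j h)

/-- The subalgebra `𝓔_G` of `𝓔ₙ` generated by the `x_{ij}` with `{i, j}` an edge of `G`. -/
noncomputable def graphSubalgebra {n : ℕ} (G : SimpleGraph (Fin n)) : Subalgebra ℚ (FK n) :=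
  Algebra.adjoin ℚ {y | ∃ (i j : Fin n) (h : G.Adj i j), y = x i j h.ne}

/-- The multiplication map `𝓔_{G₁} ⊗ 𝓔_{G₂} → 𝓔ₙ`, `a ⊗ b ↦ a b`. -/
noncomputable def mu {n : ℕ} (G₁ G₂ : SimpleGraph (Fin n)) :
    TensorProduct ℚ (graphSubalgebra G₁) (graphSubalgebra G₂) →ₗ[ℚ] FK n :=
  Submodule.mulMap (Subalgebra.toSubmodule (graphSubalgebra G₁))
    (Subalgebra.toSubmodule (graphSubalgebra G₂))

end Pool.Agent.Lib.MP_9e57f8_al
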