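import Pool.Agent.Lib.MP_9e57f8_al.Check

/-!
# Derivations on coded words, and cancellation of a coded word
-/

open Equiv (swap)

namespace Pool.Agent.Lib.MP_9e57f8_al

lemma quot_surjective (n : ℕ) : Function.Surjective (quot n) :=
  RingQuot.mkAlgHom_surjective ℚ (FKRel n)

lemma quot_gen {n : ℕ} (p : Pair n) : quot n (FreeAlgebra.ι ℚ p) = xx p.1.1 p.1.2 := by
  rw [xx_of_ne p.2]; rfl

/-- Induction principle for `𝓔ₙ`: left multiplications by generators. -/
lemma FK_induction {n : ℕ} {C : FK n → Prop}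
    (h1 : ∀ c : ℚ, C (algebraMap ℚ (FK n) c)) (hx : ∀ i j : Fin n, i ≠ j → C (xx i j))
    (ha : ∀ a b, C a → C b → C (a + b)) (hm : ∀ a b, C a → C b → C (a * b)) (y : FK n) : C y := by
  obtain ⟨a, rfl⟩ := quot_surjective n y
  refine FreeAlgebra.induction ℚ (Pair n) (motive := fun a => C (quot n a)) ?_ ?_ ?_ ?_ a
  · intro r
    rw [AlgHom.commutes]; exact h1 r
  · intro p
    rw [quot_gen]; exact hx _ _ p.2
  · intro a b ha' hb'
    rw [map_mul]; exact hm _ _ ha' hb'
  · intro a b ha' hb'
    rw [map_add]; exact ha _ _ ha' hb'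

lemma nabRep_fst_all {n : ℕ} (y : FK n) :
    ∀ p : FK n × (Letter n → FK n), (nabRep n y p).1 = y * p.1 := by
  refine FK_induction (C := fun y => ∀ p, (nabRep n y p).1 = y * p.1) ?_ ?_ ?_ ?_ y
  · intro c p
    rw [AlgHom.commutes, Module.algebraMap_end_apply, Prod.smul_fst, Algebra.smul_def]
  · intro i j h p
    exact nabRep_fst i j h p
  · intro a b h1 h2 p
    rw [map_add, LinearMap.add_apply, Prod.fst_add, h1, h2, add_mul]
  · intro a b h1 h2 p
    rw [map_mul, Module.End.mul_apply, h1, h2, mul_assoc]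

lemma nabla_mul {n : ℕ} (e : Letter n) (i j : Fin n) (y : FK n) :
    nabla e (xx i j * y) = (dl i j e.1 e.2) • y
      + xx i j * nabla (swap i j e.1, swap i j e.2) y := by
  by_cases h : i = j
  · subst h
    have hd : dl i i e.1 e.2 = 0 := by simp [dl]
    rw [xx_self, zero_mul, map_zero, hd, zero_smul, zero_mul, add_zero]
  · change (nabRep n (xx i j * y) (1, 0)).2 e = _
    rw [map_mul, Module.End.mul_apply]
    have e1 : nabRep n (xx i j) = nabOp i j := by rw [nabRep, liftE_xx _ _ _ _ _ h]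
    rw [e1, nabOp_snd, nabRep_fst_all, mul_one]
    rfl

/-- the derivation on coded words; `pre` codes the letters already passed -/
def nabN : ℕ → ℕ → Letter 6 → ℕ → P
  | 0, _, _, _ => []
  | k + 1, pre, e, n =>
    let a := ltr (n / 16 ^ k % 16)
    let d := dl a.1 a.2 e.1 e.2
    let r := nabN k (pre * 16 + n / 16 ^ k % 16) (swap a.1 a.2 e.1, swap a.1 a.2 e.2) (n % 16 ^ k)
    cond (isz d) r ((d, pre * 16 ^ k + n % 16 ^ k) :: r)

lemma nabN_succ (k pre : ℕ) (e : Letter 6) (n : ℕ) (m : ℕ) :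
    evP m (nabN (k + 1) pre e n)
      = (dl (ltr (n / 16 ^ k % 16)).1 (ltr (n / 16 ^ k % 16)).2 e.1 e.2) •
          evc m (pre * 16 ^ k + n % 16 ^ k)
        + evP m (nabN k (pre * 16 + n / 16 ^ k % 16)
            (swap (ltr (n / 16 ^ k % 16)).1 (ltr (n / 16 ^ k % 16)).2 e.1,
             swap (ltr (n / 16 ^ k % 16)).1 (ltr (n / 16 ^ k % 16)).2 e.2) (n % 16 ^ k)) := by
  rw [nabN]
  cases h : isz (dl (ltr (n / 16 ^ k % 16)).1 (ltr (n / 16 ^ k % 16)).2 e.1 e.2) with
  | true => rw [cond_true, isz_spec h, zero_smul, zero_add]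
  | false => rw [cond_false, evP_cons]

lemma evc_head (k n : ℕ) :
    evc (k + 1) n = lx (n / 16 ^ k % 16) * evc k (n % 16 ^ k) := by
  rw [Nat.add_comm, evc_add, evc_one]

lemma nabN_spec (k : ℕ) : ∀ (j pre : ℕ) (e : Letter 6) (n : ℕ),
    evP (j + (k - 1)) (nabN k pre e n) = evc j pre * nabla e (evc k n) := by
  induction k with
  | zero =>
    intro j pre e n
    rw [nabN, evP_nil, evc_zero, nabla_one, mul_zero]
  | succ k ih =>
    intro j pre e n
    have hk : j + (k + 1 - 1) = j + k := by omega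
    rw [hk, nabN_succ, evc_head, lx, nabla_mul, mul_add, mul_smul_comm]
    congr 1
    · rw [evc_cat]
      rw [evc_mod]
    · cases k with
      | zero => simp [nabN, evP_nil, evc_zero, nabla_one]
      | succ k =>
        have h := ih (j + 1) (pre * 16 + n / 16 ^ (k + 1) % 16)
          (swap (ltr (n / 16 ^ (k + 1) % 16)).1 (ltr (n / 16 ^ (k + 1) % 16)).2 e.1,
           swap (ltr (n / 16 ^ (k + 1) % 16)).1 (ltr (n / 16 ^ (k + 1) % 16)).2 e.2)
          (n % 16 ^ (k + 1))
        have hk2 : j + 1 + (k + 1 - 1) = j + (k + 1) := by omega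
        rw [hk2] at h
        rw [h]
        have e1 : evc (j + 1) (pre * 16 + n / 16 ^ (k + 1) % 16)
            = evc j pre * lx (n / 16 ^ (k + 1) % 16) := by
          have := evc_cat j 1 pre (n / 16 ^ (k + 1))
          rw [pow_one, evc_one] at this
          exact this
        rw [e1, lx, mul_assoc]

/-- the derivation on formal sums of words of length `k` -/
def nabP (k : ℕ) (e : Letter 6) : P → P
  | [] => []
  | t :: p => (nabN k 0 e t.2).map (fun s => (t.1 * s.1, s.2)) ++ nabP k e p

lemma evP_map (k : ℕ) (c : ℤ) (p : P) :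
    evP k (p.map fun s => (c * s.1, s.2)) = c • evP k p := by
  induction p with
  | nil => simp [evP_nil]
  | cons t p ih =>
    rw [List.map_cons, evP_cons, ih, evP_cons, smul_add, smul_smul]

lemma nabP_spec (k : ℕ) (e : Letter 6) (p : P) :
    evP k (nabP (k + 1) e p) = nabla e (evP (k + 1) p) := by
  induction p with
  | nil => simp [nabP, evP_nil]
  | cons t p ih =>
    have h := nabN_spec (k + 1) 0 0 e t.2
    rw [evc_zero, one_mul, Nat.zero_add, Nat.add_sub_cancel] at h
    rw [nabP, evP_append, ih, evP_map, h, evP_cons, map_add, map_zsmul]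

/-- the derivation in front of an element killed by the derivations of `K_{3456}` -/
lemma nabN_mul_spec {Y : FK 6} (hY : ∀ e : Letter 6, 2 ≤ e.1 → 2 ≤ e.2 → nabla e Y = 0)
    (k : ℕ) : ∀ (j pre : ℕ) (e : Letter 6) (n : ℕ), 2 ≤ e.1 → 2 ≤ e.2 →
    (∀ a ∈ dec k n, 2 ≤ a.1 ∧ 2 ≤ a.2) →
    evP (j + (k - 1)) (nabN k pre e n) * Y = evc j pre * nabla e (evc k n * Y) := by
  induction k with
  | zero =>
    intro j pre e n h1 h2 _
    rw [nabN, evP_nil, evc_zero, one_mul, hY e h1 h2, mul_zero, zero_mul]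
  | succ k ih =>
    intro j pre e n h1 h2 hn
    have hd : dec (k + 1) n = ltr (n / 16 ^ k % 16) :: dec k (n % 16 ^ k) := by
      clear ih hn
      induction k generalizing n with
      | zero => simp [dec]
      | succ k ih2 =>
        rw [dec, ih2 (n / 16), dec]
        have a1 : n / 16 / 16 ^ k = n / 16 ^ (k + 1) := by
          rw [Nat.div_div_eq_div_mul, pow_succ, mul_comm]
        have a2 : n / 16 % 16 ^ k = n % 16 ^ (k + 1) / 16 := by
          rw [pow_succ, mul_comm, Nat.mod_mul_right_div_self]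
        have a3 : n % 16 ^ (k + 1) % 16 = n % 16 := by
          rw [pow_succ, mul_comm, Nat.mod_mul_right_mod]
        rw [a1, a2, a3]
        rfl
    rw [hd] at hn
    have ha := hn _ List.mem_cons_self
    have hr := fun a h => hn a (List.mem_cons_of_mem _ h)
    have hsw : ∀ y : Fin 6, 2 ≤ y →
        2 ≤ swap (ltr (n / 16 ^ k % 16)).1 (ltr (n / 16 ^ k % 16)).2 y := by
      intro y hy
      rw [Equiv.swap_apply_def]
      split_ifs
      · exact ha.2
      · exact ha.1
      · exact hy
    have hk : j + (k + 1 - 1) = j + k := by omega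
    rw [hk, nabN_succ, evc_head, lx, mul_assoc (xx _ _), nabla_mul, mul_add, mul_smul_comm,
      add_mul, smul_mul_assoc]
    congr 1
    · rw [evc_cat, evc_mod, mul_assoc]
    · cases k with
      | zero =>
        rw [evc_zero, one_mul, hY _ (hsw _ h1) (hsw _ h2)]
        simp [nabN, evP_nil]
      | succ k =>
        have h := ih (j + 1) (pre * 16 + n / 16 ^ (k + 1) % 16)
          (swap (ltr (n / 16 ^ (k + 1) % 16)).1 (ltr (n / 16 ^ (k + 1) % 16)).2 e.1,
           swap (ltr (n / 16 ^ (k + 1) % 16)).1 (ltr (n / 16 ^ (k + 1) % 16)).2 e.2)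
          (n % 16 ^ (k + 1)) (hsw _ h1) (hsw _ h2) hr
        have hk2 : j + 1 + (k + 1 - 1) = j + (k + 1) := by omega
        rw [hk2] at h
        rw [h]
        have e1 : evc (j + 1) (pre * 16 + n / 16 ^ (k + 1) % 16)
            = evc j pre * lx (n / 16 ^ (k + 1) % 16) := by
          have := evc_cat j 1 pre (n / 16 ^ (k + 1))
          rw [pow_one, evc_one] at this
          exact this
        rw [e1, lx, mul_assoc]

/-- all words of the sum use only letters of `K_{3456}` -/
def okP (k : ℕ) (p : P) : Bool := p.all fun t => (dec k t.2).all fun a =>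
  decide (2 ≤ a.1) && decide (2 ≤ a.2)

lemma nabP_mul_spec {Y : FK 6} (hY : ∀ e : Letter 6, 2 ≤ e.1 → 2 ≤ e.2 → nabla e Y = 0)
    (k : ℕ) (e : Letter 6) (h1 : 2 ≤ e.1) (h2 : 2 ≤ e.2) (p : P) (hp : okP (k + 1) p = true) :
    evP k (nabP (k + 1) e p) * Y = nabla e (evP (k + 1) p * Y) := by
  induction p with
  | nil => simp [nabP, evP_nil]
  | cons t p ih =>
    rw [okP, List.all_cons, Bool.and_eq_true, List.all_eq_true] at hp
    obtain ⟨hp1, hp2⟩ := hp
    have hp1' : ∀ a ∈ dec (k + 1) t.2, 2 ≤ a.1 ∧ 2 ≤ a.2 := by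
      intro a ha
      have := hp1 a ha
      simpa using this
    have h := nabN_mul_spec hY (k + 1) 0 0 e t.2 h1 h2 hp1'
    rw [evc_zero, one_mul, Nat.zero_add, Nat.add_sub_cancel] at h
    rw [nabP, evP_append, add_mul, ih hp2, evP_map, smul_mul_assoc, h, evP_cons, add_mul,
      map_add, smul_mul_assoc, map_zsmul]

/-- iterated derivations of a formal sum of words of length `v.length` -/
def iterN : List (Letter 6) → P → P
  | [], p => p
  | e :: v, p => iterN v (nabP (v.length + 1) e p)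

/-- iterated test -/
def iterOK : List (Letter 6) → P → Bool
  | [], _ => true
  | e :: v, p => decide (2 ≤ e.1) && decide (2 ≤ e.2) && okP (v.length + 1) p &&
      iterOK v (nabP (v.length + 1) e p)

lemma iter_spec {Y : FK 6} (hY : ∀ e : Letter 6, 2 ≤ e.1 → 2 ≤ e.2 → nabla e Y = 0)
    (v : List (Letter 6)) : ∀ p : P, iterOK v p = true → evP v.length p * Y = 0 →
    evP 0 (iterN v p) * Y = 0 := by
  induction v with
  | nil => intro p _ h; exact h
  | cons e v ih =>
    intro p hp h
    rw [iterOK] at hp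
    simp only [Bool.and_eq_true, decide_eq_true_eq] at hp
    obtain ⟨⟨⟨h1, h2⟩, h3⟩, h4⟩ := hp
    rw [iterN]
    refine ih _ h4 ?_
    rw [nabP_mul_spec hY v.length e h1 h2 p h3]
    rw [List.length_cons] at h
    rw [h, map_zero]

end Pool.Agent.Lib.MP_9e57f8_al
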