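import Pool.Agent.Lib.MP_9e57f8_al.XZero
import Pool.Agent.Lib.MP_9e57f8_al.Criterion

/-!
# The counterexample to injectivity for every `n ≥ 6`
-/

open Equiv (swap)

namespace Pool.Agent.Lib.MP_9e57f8_al

/-- the words (reversed) of the element `c` -/
def Wz : List (ℤ × List (Letter 6)) := [
  (1, [(1, 5), (1, 3), (1, 2), (1, 3), (1, 5), (0, 1), (0, 4), (0, 2), (0, 3), (0, 2), (0, 4), (0, 1)]),
  (-1, [(0, 1), (1, 5), (1, 3), (1, 2), (1, 3), (1, 5), (0, 4), (0, 2), (0, 3), (0, 2), (0, 4), (0, 1)]),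
  (-1, [(0, 1), (0, 4), (0, 3), (0, 2), (1, 5), (1, 2), (0, 3), (1, 3), (1, 2), (1, 5), (0, 4), (0, 1)]),
  (1, [(0, 4), (0, 3), (0, 2), (0, 3), (0, 4), (0, 1), (1, 5), (1, 2), (1, 3), (1, 2), (1, 5), (0, 1)]),
  (1, [(0, 4), (0, 1), (1, 5), (1, 3), (1, 2), (1, 3), (1, 5), (0, 1), (0, 4), (0, 2), (0, 3), (0, 2)]),
  (1, [(0, 3), (0, 4), (0, 1), (1, 5), (1, 2), (1, 3), (1, 2), (1, 5), (0, 1), (0, 4), (0, 3), (0, 2)]),
  (-1, [(0, 3), (0, 2), (0, 4), (0, 1), (1, 5), (1, 2), (1, 3), (1, 2), (1, 5), (0, 1), (0, 4), (0, 2)]),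
  (1, [(0, 2), (0, 4), (0, 1), (1, 5), (1, 3), (1, 2), (1, 3), (1, 5), (0, 1), (0, 4), (0, 2), (0, 3)]),
  (-1, [(0, 2), (0, 3), (0, 4), (0, 1), (1, 5), (1, 3), (1, 2), (1, 3), (1, 5), (0, 1), (0, 4), (0, 3)]),
  (-1, [(0, 4), (0, 3), (0, 2), (0, 3), (0, 1), (1, 5), (1, 2), (1, 3), (1, 2), (1, 5), (0, 1), (0, 4)]),
  (-1, [(0, 2), (0, 3), (0, 2), (0, 4), (0, 1), (1, 5), (1, 2), (1, 3), (1, 2), (1, 5), (0, 1), (0, 4)]),
  (-1, [(0, 4), (0, 1), (1, 5), (1, 3), (1, 2), (1, 3), (1, 5), (0, 1), (0, 2), (0, 3), (0, 2), (0, 4)]),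
  (1, [(0, 1), (1, 5), (1, 3), (1, 2), (1, 3), (1, 5), (0, 1), (0, 4), (0, 2), (0, 3), (0, 2), (0, 4)]),
  (1, [(1, 5), (0, 1), (0, 4), (0, 3), (0, 2), (0, 3), (0, 4), (0, 1), (1, 5), (1, 2), (1, 3), (1, 2)]),
  (1, [(1, 3), (1, 5), (0, 1), (0, 4), (0, 2), (0, 3), (0, 2), (0, 4), (0, 1), (1, 5), (1, 3), (1, 2)]),
  (-1, [(1, 3), (1, 2), (1, 5), (0, 1), (0, 4), (0, 2), (0, 3), (0, 2), (0, 4), (0, 1), (1, 5), (1, 2)]),
  (1, [(1, 2), (1, 5), (0, 1), (0, 4), (0, 3), (0, 2), (0, 3), (0, 4), (0, 1), (1, 5), (1, 2), (1, 3)]),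
  (-1, [(1, 2), (1, 3), (1, 5), (0, 1), (0, 4), (0, 3), (0, 2), (0, 3), (0, 4), (0, 1), (1, 5), (1, 3)]),
  (-1, [(1, 5), (1, 3), (1, 2), (1, 3), (0, 1), (0, 4), (0, 2), (0, 3), (0, 2), (0, 4), (0, 1), (1, 5)]),
  (-1, [(1, 2), (1, 3), (1, 2), (1, 5), (0, 1), (0, 4), (0, 2), (0, 3), (0, 2), (0, 4), (0, 1), (1, 5)]),
  (-1, [(1, 5), (0, 1), (0, 4), (0, 3), (0, 2), (0, 3), (0, 4), (0, 1), (1, 2), (1, 3), (1, 2), (1, 5)]),
  (1, [(0, 1), (0, 4), (0, 3), (0, 2), (0, 3), (0, 4), (0, 1), (1, 5), (1, 2), (1, 3), (1, 2), (1, 5)])]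

/-- the words of the element `σ(c)` -/
def Uz : List (ℤ × List (Letter 6)) := [
  (1, [(0, 5), (2, 5), (3, 5), (2, 5), (0, 5), (4, 5), (1, 4), (3, 4), (2, 4), (3, 4), (1, 4), (4, 5)]),
  (-1, [(0, 5), (2, 5), (3, 5), (2, 5), (4, 5), (1, 4), (3, 4), (2, 4), (3, 4), (1, 4), (4, 5), (0, 5)]),
  (-1, [(0, 5), (4, 5), (1, 4), (2, 4), (3, 4), (2, 4), (1, 4), (4, 5), (0, 5), (2, 5), (3, 5), (2, 5)]),
  (-1, [(0, 5), (4, 5), (1, 4), (2, 4), (3, 4), (2, 4), (1, 4), (4, 5), (3, 5), (2, 5), (3, 5), (0, 5)]),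
  (1, [(1, 4), (2, 4), (3, 4), (2, 4), (1, 4), (4, 5), (0, 5), (3, 5), (2, 5), (3, 5), (0, 5), (4, 5)]),
  (-1, [(1, 4), (2, 4), (3, 4), (2, 4), (4, 5), (0, 5), (3, 5), (2, 5), (3, 5), (0, 5), (4, 5), (1, 4)]),
  (-1, [(1, 4), (4, 5), (0, 5), (2, 5), (3, 5), (2, 5), (0, 5), (4, 5), (1, 4), (2, 4), (3, 4), (2, 4)]),
  (-1, [(1, 4), (4, 5), (0, 5), (2, 5), (3, 5), (2, 5), (0, 5), (4, 5), (3, 4), (2, 4), (3, 4), (1, 4)]),
  (-1, [(2, 4), (1, 4), (4, 5), (0, 5), (2, 5), (3, 5), (2, 5), (0, 5), (4, 5), (1, 4), (2, 4), (3, 4)]),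
  (1, [(2, 4), (3, 4), (1, 4), (4, 5), (0, 5), (2, 5), (3, 5), (2, 5), (0, 5), (4, 5), (1, 4), (3, 4)]),
  (1, [(2, 4), (3, 4), (2, 4), (1, 4), (4, 5), (0, 5), (3, 5), (2, 5), (3, 5), (0, 5), (4, 5), (1, 4)]),
  (-1, [(2, 5), (0, 5), (4, 5), (1, 4), (2, 4), (3, 4), (2, 4), (1, 4), (4, 5), (0, 5), (2, 5), (3, 5)]),
  (1, [(2, 5), (3, 5), (0, 5), (4, 5), (1, 4), (2, 4), (3, 4), (2, 4), (1, 4), (4, 5), (0, 5), (3, 5)]),
  (1, [(2, 5), (3, 5), (2, 5), (0, 5), (4, 5), (1, 4), (3, 4), (2, 4), (3, 4), (1, 4), (4, 5), (0, 5)]),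
  (-1, [(3, 4), (1, 4), (4, 5), (0, 5), (3, 5), (2, 5), (3, 5), (0, 5), (4, 5), (1, 4), (3, 4), (2, 4)]),
  (1, [(3, 4), (2, 4), (1, 4), (4, 5), (0, 5), (3, 5), (2, 5), (3, 5), (0, 5), (4, 5), (1, 4), (2, 4)]),
  (-1, [(3, 5), (0, 5), (4, 5), (1, 4), (3, 4), (2, 4), (3, 4), (1, 4), (4, 5), (0, 5), (3, 5), (2, 5)]),
  (1, [(3, 5), (2, 5), (0, 5), (4, 5), (1, 4), (3, 4), (2, 4), (3, 4), (1, 4), (4, 5), (0, 5), (2, 5)]),
  (1, [(4, 5), (0, 5), (2, 5), (3, 5), (2, 5), (0, 5), (4, 5), (1, 4), (3, 4), (2, 4), (3, 4), (1, 4)]),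
  (-1, [(4, 5), (1, 4), (0, 5), (2, 5), (3, 5), (3, 4), (2, 5), (0, 5), (2, 4), (3, 4), (1, 4), (4, 5)]),
  (-1, [(4, 5), (1, 4), (2, 4), (3, 4), (2, 4), (1, 4), (0, 5), (3, 5), (2, 5), (3, 5), (0, 5), (4, 5)]),
  (1, [(4, 5), (1, 4), (2, 4), (3, 4), (2, 4), (1, 4), (4, 5), (0, 5), (3, 5), (2, 5), (3, 5), (0, 5)])]

/-- twisted words -/
def yrL : List (Letter 6) → List (Letter 6)
  | [] => []
  | a :: r => (grp r a.1, grp r a.2) :: yrL r

lemma Yr_eq (r : List (Letter 6)) : Yr r = evW (yrL r) := by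
  induction r with
  | nil => simp [Yr, yrL, evW]
  | cons a r ih => rw [Yr, yrL, ih]; simp [evW]

/-- signed code of a word -/
def nW : List (Letter 6) → ℤ × ℕ
  | [] => (1, 0)
  | a :: l => (sgl a.1 a.2 * (nW l).1, cdl a.1 a.2 * 16 ^ l.length + (nW l).2 % 16 ^ l.length)

lemma evW_eq (l : List (Letter 6)) (hl : ∀ a ∈ l, a.1 ≠ a.2) :
    evW l = (nW l).1 • evc l.length (nW l).2 := by
  induction l with
  | nil => simp [evW, nW, evc_zero]
  | cons a l ih =>
    have h1 := ih fun b hb => hl b (List.mem_cons_of_mem _ hb)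
    have ha := hl a List.mem_cons_self
    have e : evW (a :: l) = xx a.1 a.2 * evW l := by simp [evW]
    have e2 : xx a.1 a.2 = sgl a.1 a.2 • lx (cdl a.1 a.2) := by
      rw [lx_cdl ha, smul_smul]
      have e' : sgl a.1 a.2 * sgl a.1 a.2 = 1 := by unfold sgl; split_ifs <;> norm_num
      rw [e', one_smul]
    rw [e, h1, nW, List.length_cons, Nat.add_comm l.length 1]
    simp only
    rw [evc_cat, evc_one, Nat.mod_eq_of_lt (ltr_cdl _ _ ha).1]
    rw [e2, smul_mul_smul_comm]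

/-- the formal sum of a list of signed words -/
def fsum (f : List (Letter 6) → List (Letter 6)) (l : List (ℤ × List (Letter 6))) : P :=
  l.map fun t => (t.1 * (nW (f t.2)).1, (nW (f t.2)).2)

lemma fsum_spec (f : List (Letter 6) → List (Letter 6)) (l : List (ℤ × List (Letter 6)))
    (h : ∀ t ∈ l, (f t.2).length = 12 ∧ ∀ a ∈ f t.2, a.1 ≠ a.2) :
    (l.map fun t => (t.1 : ℚ) • evW (f t.2)).sum = evP 12 (fsum f l) := by
  induction l with
  | nil => rfl
  | cons t l ih =>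
    obtain ⟨h1, h2⟩ := h t List.mem_cons_self
    rw [List.map_cons, List.sum_cons, ih fun s hs => h s (List.mem_cons_of_mem _ hs)]
    have e : fsum f (t :: l) = (t.1 * (nW (f t.2)).1, (nW (f t.2)).2) :: fsum f l := rfl
    rw [e, evP_cons, evW_eq _ h2, h1, Int.cast_smul_eq_zsmul, smul_smul]

lemma Wz_prop : ∀ t ∈ Wz, (yrL t.2).length = 12 ∧ ∀ a ∈ yrL t.2, a.1 ≠ a.2 := by
  decide +kernel

lemma Wz_prop' : ∀ t ∈ Wz, (t.2.reverse).length = 12 ∧ ∀ a ∈ t.2.reverse, a.1 ≠ a.2 := by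
  decide +kernel

lemma Uz_prop : ∀ t ∈ Uz, (t.2).length = 12 ∧ ∀ a ∈ t.2, a.1 ≠ a.2 := by
  decide +kernel

lemma xS_split : isE (nrm 8 (addS (-1) xS (fsum yrL Wz ++
    (fsum id Uz).map fun s => (-1 * s.1, s.2)))) = true := by
  decide +kernel

/-- The identity `S(c) = σ(c)` in `𝓔₆`. -/
theorem hid6 : (Wz.map fun t => (t.1 : ℚ) • Yr t.2).sum
    = (Uz.map fun t => (t.1 : ℚ) • evW t.2).sum := by
  have h1 : (Wz.map fun t => (t.1 : ℚ) • Yr t.2).sum = evP 12 (fsum yrL Wz) := by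
    rw [← fsum_spec _ _ Wz_prop]
    simp only [Yr_eq]
  have h2 : (Uz.map fun t => (t.1 : ℚ) • evW t.2).sum = evP 12 (fsum id Uz) := by
    rw [← fsum_spec _ _ Uz_prop]
    rfl
  have h3 := evP_of_isE (k := 12) xS_split
  rw [evP_addS, evP_xS, smul_zero, zero_add, evP_append, evP_map, neg_smul, one_smul] at h3
  rw [h1, h2]
  exact eq_of_sub_eq_zero (by rw [sub_eq_add_neg]; exact h3)

lemma Cr_eq (r : List (Letter 6)) : Cr r = evW r.reverse := by
  induction r with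
  | nil => simp [Cr, evW]
  | cons a r ih =>
    rw [Cr, ih, List.reverse_cons, evW_append]
    simp [evW]

/-- the test sequence for `c` -/
def vC : List (Letter 6) := [(3, 4), (1, 3), (1, 2), (1, 4), (2, 5), (1, 2), (0, 2), (2, 4), (1, 5), (1, 4), (0, 3), (0, 1)]

lemma vC_val : nrm 8 (iterN vC (fsum List.reverse Wz)) = [(1, 0)] := by decide +kernel

lemma iter_zero (v : List (Letter 6)) : ∀ p : P, evP v.length p = 0 → evP 0 (iterN v p) = 0 := by
  induction v with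
  | nil => intro p h; exact h
  | cons e v ih =>
    intro p h
    rw [iterN]
    refine ih _ ?_
    rw [nabP_spec, ← List.length_cons (a := e), h, map_zero]

/-- The element `c` is nonzero. -/
theorem hnz6 : (Wz.map fun t => (t.1 : ℚ) • Cr t.2).sum ≠ 0 := by
  intro h
  have h1 : (Wz.map fun t => (t.1 : ℚ) • Cr t.2).sum = evP 12 (fsum List.reverse Wz) := by
    rw [← fsum_spec _ _ Wz_prop']
    simp only [Cr_eq]
  rw [h1] at h
  have h2 := iter_zero vC _ h
  rw [← evP_nrm 0 8, vC_val, evP_cons, evP_nil, add_zero, one_smul, evc_zero] at h2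
  have h3 := congrArg (eps 6) h2
  rw [map_one, map_zero] at h3
  exact one_ne_zero h3

/-! ### Transfer to `n ≥ 6` -/

section transfer

variable {n : ℕ} (hn : 6 ≤ n)

/-- embedding of letters -/
def emb (a : Letter 6) : Letter n := (Fin.castLE hn a.1, Fin.castLE hn a.2)

lemma castLE_ne {i j : Fin 6} (h : i ≠ j) : Fin.castLE hn i ≠ Fin.castLE hn j :=
  fun h' => h (Fin.castLE_injective hn h')

/-- the map `𝓔₆ → 𝓔ₙ` -/
noncomputable def iota : FK 6 →ₐ[ℚ] FK n :=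
  liftE (fun i j => xx (Fin.castLE hn i) (Fin.castLE hn j))
    (fun _ _ _ => xx_anti _ _) (fun _ _ _ => xx_sq _ _)
    (fun _ _ _ _ _ _ h1 h2 h3 h4 => xx_comm (castLE_ne hn h1) (castLE_ne hn h2)
      (castLE_ne hn h3) (castLE_ne hn h4))
    (fun _ _ _ h1 h2 h3 => xx_tri (castLE_ne hn h1) (castLE_ne hn h2) (castLE_ne hn h3))

lemma iota_xx (i j : Fin 6) : iota hn (xx i j) = xx (Fin.castLE hn i) (Fin.castLE hn j) := by
  by_cases h : i = j
  · subst h; rw [xx_self, xx_self, map_zero]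
  · exact liftE_xx _ _ _ _ _ h

/-- the partial inverse on generators -/
noncomputable def back (i j : Fin n) : FK 6 :=
  if h : i.val < 6 ∧ j.val < 6 then xx ⟨i, h.1⟩ ⟨j, h.2⟩ else 0

lemma back_of {i j : Fin n} (h1 : i.val < 6) (h2 : j.val < 6) :
    back i j = xx ⟨i, h1⟩ ⟨j, h2⟩ := by simp [back, h1, h2]

lemma back_left {i j : Fin n} (h1 : ¬ i.val < 6) : back i j = 0 := by simp [back, h1]

lemma back_right {i j : Fin n} (h2 : ¬ j.val < 6) : back i j = 0 := by simp [back, h2]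

/-- the retraction `𝓔ₙ → 𝓔₆` -/
noncomputable def rho (n : ℕ) : FK n →ₐ[ℚ] FK 6 :=
  liftE back
    (fun i j _ => by
      by_cases h1 : i.val < 6
      · by_cases h2 : j.val < 6
        · rw [back_of h1 h2, back_of h2 h1]; exact xx_anti _ _
        · rw [back_right h2, back_left h2, neg_zero]
      · rw [back_left h1, back_right h1, neg_zero])
    (fun i j _ => by
      by_cases h1 : i.val < 6
      · by_cases h2 : j.val < 6
        · rw [back_of h1 h2]; exact xx_sq _ _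
        · rw [back_right h2, zero_mul]
      · rw [back_left h1, zero_mul])
    (fun i j k l _ _ hik hil hjk hjl => by
      by_cases h1 : i.val < 6
      · by_cases h2 : j.val < 6
        · by_cases h3 : k.val < 6
          · by_cases h4 : l.val < 6
            · rw [back_of h1 h2, back_of h3 h4]
              refine xx_comm ?_ ?_ ?_ ?_ <;> (intro h; rw [Fin.mk.injEq] at h)
              · exact hik (Fin.ext h)
              · exact hil (Fin.ext h)
              · exact hjk (Fin.ext h)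
              · exact hjl (Fin.ext h)
            · rw [back_right (i := k) h4, zero_mul, mul_zero]
          · rw [back_left (j := l) h3, zero_mul, mul_zero]
        · rw [back_right (i := i) h2, zero_mul, mul_zero]
      · rw [back_left (j := j) h1, zero_mul, mul_zero])
    (fun i j k hij hjk hki => by
      by_cases h1 : i.val < 6
      · by_cases h2 : j.val < 6
        · by_cases h3 : k.val < 6
          · rw [back_of h1 h2, back_of h2 h3, back_of h3 h1]
            refine xx_tri ?_ ?_ ?_ <;> (intro h; rw [Fin.mk.injEq] at h)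
            · exact hij (Fin.ext h)
            · exact hjk (Fin.ext h)
            · exact hki (Fin.ext h)
          · rw [back_right (i := j) h3, back_left (j := i) h3]; simp
        · rw [back_right (i := i) h2, back_left (j := k) h2]; simp
      · rw [back_left (j := j) h1, back_right (i := k) h1]; simp)

lemma rho_xx (i j : Fin 6) : rho n (xx (Fin.castLE hn i) (Fin.castLE hn j)) = xx i j := by
  by_cases h : i = j
  · subst h; rw [xx_self, xx_self, map_zero]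
  · rw [rho, liftE_xx _ _ _ _ _ (castLE_ne hn h), back_of (by simp) (by simp)]
    rfl

lemma iota_evW (w : List (Letter 6)) : iota hn (evW w) = evW (w.map (emb hn)) := by
  induction w with
  | nil => simp [evW]
  | cons a w ih =>
    have e : evW (a :: w) = xx a.1 a.2 * evW w := by simp [evW]
    rw [e, map_mul, ih, iota_xx]
    simp [evW, emb]

lemma rho_Cr (r : List (Letter 6)) : rho n (Cr (r.map (emb hn))) = Cr r := by
  induction r with
  | nil => simp [Cr]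
  | cons a r ih =>
    rw [List.map_cons, Cr, Cr, map_mul, ih]
    congr 1
    exact rho_xx hn a.1 a.2

lemma grp_emb (r : List (Letter 6)) (x : Fin 6) :
    grp (r.map (emb hn)) (Fin.castLE hn x) = Fin.castLE hn (grp r x) := by
  induction r generalizing x with
  | nil => simp [grp]
  | cons a r ih =>
    rw [List.map_cons, grp, grp, Equiv.Perm.mul_apply, Equiv.Perm.mul_apply, ← ih]
    congr 1
    exact Function.Injective.swap_apply (Fin.castLE_injective hn) a.1 a.2 x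

lemma grp_out (r : List (Letter 6)) (x : Fin n) (hx : ¬ x.val < 6) :
    grp (r.map (emb hn)) x = x := by
  induction r with
  | nil => simp [grp]
  | cons a r ih =>
    rw [List.map_cons, grp, Equiv.Perm.mul_apply, Equiv.swap_apply_of_ne_of_ne, ih]
    · rintro rfl; exact hx (by simp [emb])
    · rintro rfl; exact hx (by simp [emb])

lemma grp_one (r : List (Letter 6)) (h : grp r = 1) : grp (r.map (emb hn)) = 1 := by
  ext x
  by_cases hx : x.val < 6
  · have e : x = Fin.castLE hn ⟨x, hx⟩ := rfl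
    rw [e, grp_emb, h]; rfl
  · rw [grp_out hn r x hx]; rfl

lemma iota_Yr (r : List (Letter 6)) : iota hn (Yr r) = Yr (r.map (emb hn)) := by
  induction r with
  | nil => simp [Yr]
  | cons a r ih =>
    rw [List.map_cons, Yr, Yr, map_mul, ih, iota_xx]
    congr 1
    rw [← grp_emb, ← grp_emb]
    rfl

end transfer

/-- the edges of the graph with seven edges `12, 13, 14, 23, 24, 15, 26` (shifted to start at 0) -/
def adj7 (a b : ℕ) : Bool :=
  decide ((a, b) ∈ [(0, 1), (0, 2), (0, 3), (1, 2), (1, 3), (0, 4), (1, 5)]) ||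
    decide ((b, a) ∈ [(0, 1), (0, 2), (0, 3), (1, 2), (1, 3), (0, 4), (1, 5)])

/-- the graph on `n` vertices with these edges -/
def G7 (n : ℕ) : SimpleGraph (Fin n) where
  Adj i j := adj7 i.val j.val = true
  symm := ⟨by
    intro i j h
    rw [adj7, Bool.or_comm] at h
    exact h⟩
  loopless := ⟨by
    intro i h
    have h' : adj7 i.val i.val = true := h
    simp only [adj7, List.mem_cons, Prod.mk.injEq, List.not_mem_nil, or_false, Bool.or_self,
      decide_eq_true_eq] at h'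
    omega⟩

lemma Wz_adj : ∀ t ∈ Wz, t.2 ≠ [] ∧ grp t.2 = 1 ∧ ∀ a ∈ t.2, adj7 a.1.val a.2.val = true := by
  decide +kernel

lemma Uz_adj : ∀ t ∈ Uz, ∀ a ∈ t.2, a.1 ≠ a.2 ∧ adj7 a.1.val a.2.val = false := by
  decide +kernel

/-- For every `n ≥ 6` the multiplication map of the pair `(G7ᶜ, G7)` is not injective. -/
theorem not_injective_G7 {n : ℕ} (hn : 6 ≤ n) : ¬ Function.Injective (mu (G7 n)ᶜ (G7 n)) := by
  refine not_injective_of_words
    (Wz.map fun t => ((t.1 : ℚ), t.2.map (emb hn))) (Uz.map fun t => ((t.1 : ℚ), t.2.map (emb hn)))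
    ?_ ?_ ?_ ?_ ?_ ?_
  · intro p hp a ha
    obtain ⟨t, ht, rfl⟩ := List.mem_map.1 hp
    obtain ⟨b, hb, rfl⟩ := List.mem_map.1 ha
    exact (Wz_adj t ht).2.2 b hb
  · intro p hp
    obtain ⟨t, ht, rfl⟩ := List.mem_map.1 hp
    simpa using (Wz_adj t ht).1
  · intro p hp
    obtain ⟨t, ht, rfl⟩ := List.mem_map.1 hp
    exact grp_one hn _ (Wz_adj t ht).2.1
  · intro p hp a ha
    obtain ⟨t, ht, rfl⟩ := List.mem_map.1 hp
    obtain ⟨b, hb, rfl⟩ := List.mem_map.1 ha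
    obtain ⟨h1, h2⟩ := Uz_adj t ht b hb
    rw [SimpleGraph.compl_adj]
    refine ⟨castLE_ne hn h1, fun h => ?_⟩
    have h' : adj7 b.1.val b.2.val = true := h
    rw [h2] at h'
    exact Bool.false_ne_true h'
  · have h := congrArg (iota hn) hid6
    rw [map_list_sum, map_list_sum, List.map_map, List.map_map] at h
    rw [List.map_map, List.map_map]
    simpa [Function.comp_def, iota_Yr, iota_evW] using h
  · intro h
    apply hnz6
    have h' := congrArg (rho n) h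
    rw [map_list_sum, map_zero, List.map_map, List.map_map] at h'
    simpa [Function.comp_def, rho_Cr] using h'

end Pool.Agent.Lib.MP_9e57f8_al
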