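import Pool.Agent.Lib.MP_9e57f8_al.Check

/-!
# Flat certificates, quadratic relations, libraries of relations
-/

namespace Pool.Agent.Lib.MP_9e57f8_al

/-- signed letter -/
def sgl (i j : Fin 6) : ℤ := if i < j then 1 else -1

/-- code of a letter -/
def cdl (i j : Fin 6) : ℕ :=
  match (min i j).val, (max i j).val with
  | 2, 4 => 1
  | 3, 4 => 2
  | 2, 5 => 3
  | 3, 5 => 4
  | 4, 5 => 5
  | 0, 4 => 6
  | 1, 4 => 7
  | 0, 5 => 8
  | 1, 5 => 9
  | 2, 3 => 10
  | 0, 2 => 11
  | 0, 3 => 12
  | 1, 2 => 13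
  | 1, 3 => 14
  | 0, 1 => 15
  | _, _ => 0

lemma ltr_cdl : ∀ i j : Fin 6, i ≠ j →
    cdl i j < 16 ∧ ltr (cdl i j) = if i < j then (i, j) else (j, i) := by decide

lemma lx_cdl {i j : Fin 6} (h : i ≠ j) : lx (cdl i j) = sgl i j • xx i j := by
  obtain ⟨-, h2⟩ := ltr_cdl i j h
  rw [lx, h2, sgl]
  split_ifs with hij
  · simp
  · rw [xx_anti i j]; simp

lemma evc_two (a b : ℕ) (ha : a < 16) (hb : b < 16) : evc 2 (a * 16 + b) = lx a * lx b := by
  have := evc_cat 1 1 a b
  rw [pow_one, Nat.mod_eq_of_lt hb] at this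
  rw [this, evc_one, evc_one, Nat.mod_eq_of_lt ha, Nat.mod_eq_of_lt hb]

lemma evc_two_cdl {i j k l : Fin 6} (h : i ≠ j) (h' : k ≠ l) :
    (sgl i j * sgl k l) • evc 2 (cdl i j * 16 + cdl k l) = xx i j * xx k l := by
  rw [evc_two _ _ (ltr_cdl i j h).1 (ltr_cdl k l h').1, lx_cdl h, lx_cdl h', smul_mul_smul_comm,
    smul_smul]
  have e : sgl i j * sgl k l * (sgl i j * sgl k l) = 1 := by
    unfold sgl; split_ifs <;> norm_num
  rw [e, one_smul]

/-- test for a quadratic relation -/
def qOK (poly : List ℕ) : List (Fin 6) → Bool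
  | [i, j] => decide (i ≠ j ∧ unps poly = [(1, cdl i j * 16 + cdl i j)])
  | [i, j, k, l] => decide (i ≠ j ∧ k ≠ l ∧ i ≠ k ∧ i ≠ l ∧ j ≠ k ∧ j ≠ l ∧ i < j ∧ k < l ∧
      unps poly = [(1, cdl i j * 16 + cdl k l), (-1, cdl k l * 16 + cdl i j)])
  | [i, j, k] => decide (i ≠ j ∧ j ≠ k ∧ k ≠ i ∧
      unps poly = [(sgl i j * sgl j k, cdl i j * 16 + cdl j k),
        (sgl j k * sgl k i, cdl j k * 16 + cdl k i), (sgl k i * sgl i j, cdl k i * 16 + cdl i j)])
  | _ => false

lemma qOK_spec {poly : List ℕ} {c : List (Fin 6)} (h : qOK poly c = true) :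
    evP 2 (unps poly) = 0 := by
  match c, h with
  | [i, j], h =>
    rw [qOK, decide_eq_true_eq] at h
    obtain ⟨h1, h2⟩ := h
    have e := evc_two_cdl h1 h1
    rw [xx_sq] at e
    have e' : sgl i j * sgl i j = 1 := by unfold sgl; split_ifs <;> norm_num
    rw [e', one_smul] at e
    rw [h2, evP_cons, evP_nil, e]; simp
  | [i, j, k], h =>
    rw [qOK, decide_eq_true_eq] at h
    obtain ⟨h1, h2, h3, h4⟩ := h
    rw [h4, evP_cons, evP_cons, evP_cons, evP_nil, evc_two_cdl h1 h2, evc_two_cdl h2 h3,
      evc_two_cdl h3 h1, add_zero, ← add_assoc]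
    exact xx_tri h1 h2 h3
  | [i, j, k, l], h =>
    rw [qOK, decide_eq_true_eq] at h
    obtain ⟨h1, h2, h3, h4, h5, h6, h7, h8, h9⟩ := h
    have e1 := evc_two_cdl h1 h2
    have e2 := evc_two_cdl h2 h1
    have s1 : sgl i j = 1 := by simp [sgl, h7]
    have s2 : sgl k l = 1 := by simp [sgl, h8]
    rw [s1, s2, mul_one, one_smul] at e1 e2
    rw [h9, evP_cons, evP_cons, evP_nil, e1, e2, xx_comm h3 h4 h5 h6]
    simp

/-- a term of a flat instance -/
def flT (D dv u v : ℕ) (c : ℤ) (acc : P) : List ℕ → P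
  | [] => acc
  | n :: t => (c * (unp n).1,
      Nat.add (Nat.mul (Nat.add (Nat.mul u (Nat.pow 16 D)) (Nat.mod (unp n).2 (Nat.pow 16 D)))
        (Nat.pow 16 dv)) (Nat.mod v (Nat.pow 16 dv))) :: flT D dv u v c acc t

lemma flT_spec (K D dv u v : ℕ) (c : ℤ) (acc : P) (p : List ℕ) :
    evP (K + D + dv) (flT D dv u v c acc p)
      = c • (evc K u * evP D (unps p) * evc dv v) + evP (K + D + dv) acc := by
  induction p with
  | nil => simp [flT, unps, evP_nil]
  | cons n t ih =>
    have e1 := evc_cat K D u (unp n).2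
    have e2 := evc_cat (K + D) dv (u * 16 ^ D + (unp n).2 % 16 ^ D) v
    rw [e1] at e2
    rw [flT, evP_cons, ih, unps, evP_cons]
    change (c * (unp n).1) • evc (K + D + dv)
      ((u * 16 ^ D + (unp n).2 % 16 ^ D) * 16 ^ dv + v % 16 ^ dv) + _ = _
    rw [e2, mul_add, add_mul, smul_add, mul_smul_comm, smul_mul_assoc, smul_smul]
    abel

/-- suffix length of a flat column -/
def fD (n : ℕ) : ℕ := Nat.mod (Nat.div n 16384) 16
/-- both words of a flat column -/
def fW (n : ℕ) : ℕ := Nat.div n 262144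

/-- expansion of flat columns -/
def flC (L : Lb) (acc : P) : List ℕ → P
  | [] => acc
  | n :: t => flT (L (colR n)).1 (fD n) (Nat.div (fW n) (Nat.pow 16 (fD n)))
      (Nat.mod (fW n) (Nat.pow 16 (fD n))) (colC n) (flC L acc t) (L (colR n)).2

/-- bounds -/
def flOK (L : Lb) (Nt bd : ℕ) : List ℕ → Bool
  | [] => true
  | n :: t => cond (Nat.ble (Nat.add (L (colR n)).1 (fD n)) Nt)
      (cond (Nat.ble (Nat.succ (colR n)) bd) (flOK L Nt bd t) false) false

lemma flC_spec {L : Lb} {Nt bd : ℕ} (hLb : ∀ i < bd, evP (L i).1 (unps (L i).2) = 0) (acc : P)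
    (cols : List ℕ) (h : flOK L Nt bd cols = true) :
    evP Nt (flC L acc cols) = evP Nt acc := by
  induction cols with
  | nil => rfl
  | cons n t ih =>
    rw [flOK] at h
    cases h1 : Nat.ble (Nat.add (L (colR n)).1 (fD n)) Nt with
    | false => rw [h1] at h; simp at h
    | true =>
      cases h2 : Nat.ble (Nat.succ (colR n)) bd with
      | false => rw [h1, h2] at h; simp at h
      | true =>
        rw [h1, h2, cond_true, cond_true] at h
        have b1 : (L (colR n)).1 + fD n ≤ Nt := Nat.le_of_ble_eq_true h1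
        have b2 : colR n < bd := Nat.le_of_ble_eq_true h2
        have e := flT_spec (Nt - ((L (colR n)).1 + fD n)) (L (colR n)).1 (fD n)
          (Nat.div (fW n) (Nat.pow 16 (fD n))) (Nat.mod (fW n) (Nat.pow 16 (fD n))) (colC n)
          (flC L acc t) (L (colR n)).2
        rw [add_assoc, Nat.sub_add_cancel b1] at e
        rw [flC, e, hLb _ b2, ih h]
        simp

/-- add a scaled target -/
def chkF (L : Lb) (Nt bd fuel : ℕ) (den : ℤ) (target cols : List ℕ) : Bool :=
  cond (flOK L Nt bd cols) (isE (nrm fuel (flC L (addS den target []) cols))) false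

lemma chkF_spec {L : Lb} {Nt bd fuel : ℕ} {den : ℤ} {target cols : List ℕ}
    (hLb : ∀ i < bd, evP (L i).1 (unps (L i).2) = 0) (hden : den ≠ 0)
    (h : chkF L Nt bd fuel den target cols = true) : evP Nt (unps target) = 0 := by
  rw [chkF] at h
  cases h1 : flOK L Nt bd cols with
  | false => rw [h1] at h; simp at h
  | true =>
    rw [h1, cond_true] at h
    have e := evP_of_isE (k := Nt) h
    rw [flC_spec hLb _ _ h1, evP_addS, evP_nil, add_zero] at e
    have e3 : (den : ℚ) • evP Nt (unps target) = 0 := by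
      rw [Int.cast_smul_eq_zsmul]; exact e
    rcases smul_eq_zero.1 e3 with h3 | h3
    · exact absurd (by exact_mod_cast h3) hden
    · exact h3

/-- libraries as search trees: key, degree, packed sum, certificate -/
inductive LTr : Type
  | lf : LTr
  | nd : LTr → ℕ → ℕ → List ℕ → List ℕ → LTr → LTr

/-- look up -/
def LTr.get : LTr → ℕ → ℕ × List ℕ
  | .lf, _ => (0, [])
  | .nd l key deg poly _ r, n =>
    cond (Nat.ble key n) (cond (Nat.ble n key) (deg, poly) (r.get n)) (l.get n)

/-- all nodes pass the test -/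
def LTr.all (f : ℕ → ℕ → List ℕ → List ℕ → Bool) : LTr → Bool
  | .lf => true
  | .nd l key deg poly cert r =>
    cond (f key deg poly cert) (cond (l.all f) (r.all f) false) false

lemma LTr.get_of_all {f : ℕ → ℕ → List ℕ → List ℕ → Bool} (t : LTr) (h : t.all f = true)
    (n : ℕ) : t.get n = (0, []) ∨ ∃ cert, f n (t.get n).1 (t.get n).2 cert = true := by
  induction t with
  | lf => left; rfl
  | nd l key deg poly cert r ihl ihr =>
    rw [LTr.all] at h
    cases h1 : f key deg poly cert with
    | false => rw [h1] at h; simp at h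
    | true =>
      cases h2 : l.all f with
      | false => rw [h1, h2] at h; simp at h
      | true =>
        rw [h1, h2, cond_true, cond_true] at h
        rw [LTr.get]
        cases h3 : Nat.ble key n with
        | false => rw [cond_false]; exact ihl h2
        | true =>
          cases h4 : Nat.ble n key with
          | false => rw [cond_true, cond_false]; exact ihr h
          | true =>
            have e : key = n := le_antisymm (Nat.le_of_ble_eq_true h3) (Nat.le_of_ble_eq_true h4)
            right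
            exact ⟨cert, by rw [cond_true, cond_true, ← e]; exact h1⟩

/-- numbers to indices -/
def fins : List ℕ → List (Fin 6)
  | [] => []
  | n :: t => Fin.ofNat 6 n :: fins t

/-- test of a library entry -/
def libF (L : Lb) (key deg : ℕ) (poly cert : List ℕ) : Bool :=
  cond (Nat.ble 100 key) (chkF L deg key 5 1 poly cert)
    (cond (Nat.beq deg 2) (qOK poly (fins cert)) false)

lemma lbOK_of_all {t : LTr} (h : t.all (libF t.get) = true) : LbOK t.get := by
  intro i
  induction i using Nat.strong_induction_on with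
  | _ i ih =>
    rcases t.get_of_all h i with h0 | ⟨cert, h0⟩
    · rw [h0]; rfl
    · rw [libF] at h0
      cases h1 : Nat.ble 100 i with
      | true =>
        rw [h1, cond_true] at h0
        exact chkF_spec ih one_ne_zero h0
      | false =>
        rw [h1, cond_false] at h0
        cases h2 : Nat.beq (t.get i).1 2 with
        | false => rw [h2] at h0; simp at h0
        | true =>
          rw [h2, cond_true] at h0
          rw [Nat.eq_of_beq_eq_true h2]
          exact qOK_spec h0

end Pool.Agent.Lib.MP_9e57f8_al
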