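import Pool.Agent.Lib.MP_9e57f8_al.SmallData
import Pool.Agent.Lib.MP_9e57f8_al.Data2

/-!
# The flat certificate (check)
-/

namespace Pool.Agent.Lib.MP_9e57f8_al

/-- the flat check -/
def chkD (L : Lb) (Nt bd fuel : ℕ) (a b cols : List ℕ) : Bool :=
  cond (flOK L Nt bd cols) (isE (nrm fuel (flC L (addS 1 a (addS (-1) b [])) cols))) false

lemma xS_chk : chkD lib1 12 256 12 xS x2 fX = true := by
  decide +kernel

end Pool.Agent.Lib.MP_9e57f8_al
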