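import Pool.Agent.Lib.MP_9e57f8_al.Small
import Pool.Agent.Lib.MP_9e57f8_al.FlatCheck

/-!
# `X = X₂`
-/

namespace Pool.Agent.Lib.MP_9e57f8_al

lemma chkD_spec {L : Lb} {Nt bd fuel : ℕ} {a b cols : List ℕ} (hLb : LbOK L)
    (h : chkD L Nt bd fuel a b cols = true) : evP Nt (unps a) = evP Nt (unps b) := by
  rw [chkD] at h
  cases h1 : flOK L Nt bd cols with
  | false => rw [h1] at h; simp at h
  | true =>
    rw [h1, cond_true] at h
    have e := evP_of_isE (k := Nt) h
    rw [flC_spec (fun i _ => hLb i) _ _ h1, evP_addS, evP_addS, evP_nil, one_smul, neg_smul,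
      one_smul, add_zero] at e
    exact eq_of_sub_eq_zero (by rw [sub_eq_add_neg]; exact e)

lemma xS_eq : evP 12 (unps xS) = evP 12 (unps x2) := chkD_spec lib1_ok xS_chk

end Pool.Agent.Lib.MP_9e57f8_al
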