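import Pool.Agent.Lib.MP_9e57f8_al.LibData

/-!
# The library of relations is correct
-/

namespace Pool.Agent.Lib.MP_9e57f8_al

lemma lib0_all : lib0.all (libF lib0.get) = true := by decide +kernel

lemma lib0_ok : LbOK lib0.get := lbOK_of_all lib0_all

end Pool.Agent.Lib.MP_9e57f8_al
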