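import Pool.Agent.Lib.MP_9e57f8_al.Tables
import Pool.Agent.Lib.MP_9e57f8_al.Data2
import Pool.Agent.Lib.MP_9e57f8_al.MainData

/-!
# The main crossing certificate (check)
-/

namespace Pool.Agent.Lib.MP_9e57f8_al

lemma x2_chk : chkX lib0.get LJf RTf 6 6 14 10 x2 cX = true := by
  decide +kernel

end Pool.Agent.Lib.MP_9e57f8_al
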