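import Pool.Agent.Lib.MP_9e57f8_al.Tabs
import Pool.Agent.Lib.MP_9e57f8_al.MainCheck

/-!
# The main crossing certificate
-/

namespace Pool.Agent.Lib.MP_9e57f8_al

lemma Om_x2 : Om * evP 12 (unps x2) = 0 :=
  chkX_spec (N := 6) (M := 6) lib0_ok (by norm_num) LJf_ok RTf_ok x2_chk

end Pool.Agent.Lib.MP_9e57f8_al
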