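import Pool.Agent.Lib.MP_9e57f8_al.Words

/-!
# Braided derivations of `𝓔ₙ` and word functionals
-/

open Equiv (swap)

namespace Pool.Agent.Lib.MP_9e57f8_al

variable {n : ℕ}

/-- `δ`-coefficient with sign: `1` at `(i,j)`, `-1` at `(j,i)`. -/
def dl (i j k l : Fin n) : ℤ := (if k = i ∧ l = j then 1 else 0) - (if k = j ∧ l = i then 1 else 0)

lemma dl_anti (i j k l : Fin n) : dl j i k l = -dl i j k l := by
  simp [dl]

/-- The operator on `E × (pairs → E)` given by `x_{ij}` -/
noncomputable def nabOp (i j : Fin n) : Module.End ℚ (FK n × (Letter n → FK n)) where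
  toFun p := (xx i j * p.1, fun e => (dl i j e.1 e.2) • p.1
    + xx i j * p.2 (swap i j e.1, swap i j e.2))
  map_add' p q := by
    refine Prod.ext (by simp [mul_add]) (funext fun e => ?_)
    simp only [Prod.fst_add, Prod.snd_add, Pi.add_apply, smul_add, mul_add]
    abel
  map_smul' c p := by
    refine Prod.ext (by simp) (funext fun e => ?_)
    simp only [Prod.smul_fst, Prod.smul_snd, Pi.smul_apply, smul_add, mul_smul_comm,
      RingHom.id_apply]
    rw [smul_comm]

lemma nabOp_fst (i j : Fin n) (p : FK n × (Letter n → FK n)) :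
    (nabOp i j p).1 = xx i j * p.1 := rfl

lemma nabOp_snd (i j : Fin n) (p : FK n × (Letter n → FK n)) (e : Letter n) :
    (nabOp i j p).2 e = (dl i j e.1 e.2) • p.1 + xx i j * p.2 (swap i j e.1, swap i j e.2) := rfl

lemma nab_anti (i j : Fin n) : nabOp i j = -nabOp j i := by
  refine LinearMap.ext fun p => Prod.ext ?_ (funext fun e => ?_)
  · rw [LinearMap.neg_apply, Prod.fst_neg, nabOp_fst, nabOp_fst, xx_anti i j, neg_mul]
  · rw [LinearMap.neg_apply, Prod.snd_neg, Pi.neg_apply, nabOp_snd, nabOp_snd, dl_anti i j,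
      Equiv.swap_comm j i, xx_anti i j, neg_mul, neg_smul]
    abel

lemma dl_swap (i j k l : Fin n) : dl i j (swap i j k) (swap i j l) = -dl i j k l := by
  simp only [dl, Equiv.swap_apply_eq_iff, Equiv.swap_apply_left, Equiv.swap_apply_right]
  ring

lemma nab_sq (i j : Fin n) : nabOp i j * nabOp i j = 0 := by
  refine LinearMap.ext fun p => Prod.ext ?_ (funext fun e => ?_)
  · rw [Module.End.mul_apply, nabOp_fst, nabOp_fst, ← mul_assoc, xx_sq]; simp
  · rw [Module.End.mul_apply, nabOp_snd, nabOp_snd, nabOp_fst]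
    simp only [mul_add, ← mul_assoc, xx_sq, dl_swap, neg_smul, zero_mul, add_zero, mul_neg,
      mul_smul_comm]
    rw [add_neg_cancel]
    rfl

/-- transport of `dl` by a permutation -/
lemma dl_perm (σ : Equiv.Perm (Fin n)) (i j k l : Fin n) :
    dl i j (σ k) (σ l) = dl (σ⁻¹ i) (σ⁻¹ j) k l := by
  have h : ∀ a b : Fin n, σ a = b ↔ a = σ⁻¹ b := fun a b => by
    rw [Equiv.Perm.eq_inv_iff_eq]
  simp only [dl, h]

lemma nab_comm {i j k l : Fin n} (hik : i ≠ k) (hil : i ≠ l) (hjk : j ≠ k) (hjl : j ≠ l) :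
    nabOp i j * nabOp k l = nabOp k l * nabOp i j := by
  refine LinearMap.ext fun p => Prod.ext ?_ (funext fun e => ?_)
  · simp only [Module.End.mul_apply, nabOp_fst, ← mul_assoc]
    rw [xx_comm hik hil hjk hjl]
  · simp only [Module.End.mul_apply, nabOp_snd, nabOp_fst, mul_add, mul_smul_comm, ← mul_assoc]
    have c1 : dl k l (swap i j e.1) (swap i j e.2) = dl k l e.1 e.2 := by
      rw [dl_perm, Equiv.swap_inv, Equiv.swap_apply_of_ne_of_ne hik.symm hjk.symm,
        Equiv.swap_apply_of_ne_of_ne hil.symm hjl.symm]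
    have c2 : dl i j (swap k l e.1) (swap k l e.2) = dl i j e.1 e.2 := by
      rw [dl_perm, Equiv.swap_inv, Equiv.swap_apply_of_ne_of_ne hik hil,
        Equiv.swap_apply_of_ne_of_ne hjk hjl]
    have c3 : ∀ y, swap k l (swap i j y) = swap i j (swap k l y) := by
      intro y
      by_cases h1 : y = k
      · subst h1; rw [Equiv.swap_apply_of_ne_of_ne hik.symm hjk.symm, Equiv.swap_apply_left,
          Equiv.swap_apply_of_ne_of_ne hil.symm hjl.symm]
      by_cases h2 : y = l
      · subst h2; rw [Equiv.swap_apply_of_ne_of_ne hil.symm hjl.symm, Equiv.swap_apply_right,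
          Equiv.swap_apply_of_ne_of_ne hik.symm hjk.symm]
      rw [Equiv.swap_apply_of_ne_of_ne h1 h2, Equiv.swap_apply_of_ne_of_ne]
      · intro h; rw [Equiv.swap_apply_eq_iff, Equiv.swap_apply_of_ne_of_ne hik.symm hjk.symm] at h
        exact h1 h
      · intro h; rw [Equiv.swap_apply_eq_iff, Equiv.swap_apply_of_ne_of_ne hil.symm hjl.symm] at h
        exact h2 h
    rw [c1, c2, c3, c3, xx_comm hik hil hjk hjl]
    abel

lemma nab_tri {i j k : Fin n} (hij : i ≠ j) (hjk : j ≠ k) (hki : k ≠ i) :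
    nabOp i j * nabOp j k + nabOp j k * nabOp k i + nabOp k i * nabOp i j = 0 := by
  refine LinearMap.ext fun p => Prod.ext ?_ (funext fun e => ?_)
  · simp only [LinearMap.add_apply, Module.End.mul_apply, nabOp_fst, ← mul_assoc, Prod.fst_add]
    rw [← add_mul, ← add_mul, xx_tri hij hjk hki]; simp
  · simp only [LinearMap.add_apply, Module.End.mul_apply, nabOp_snd, nabOp_fst, mul_add,
      mul_smul_comm, ← mul_assoc, Prod.snd_add, Pi.add_apply]
    have c1 : dl j k (swap i j e.1) (swap i j e.2) = -dl k i e.1 e.2 := by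
      rw [dl_perm, Equiv.swap_inv, Equiv.swap_apply_right, Equiv.swap_apply_of_ne_of_ne hki hjk.symm,
        dl_anti]
    have c2 : dl k i (swap j k e.1) (swap j k e.2) = -dl i j e.1 e.2 := by
      rw [dl_perm, Equiv.swap_inv, Equiv.swap_apply_right,
        Equiv.swap_apply_of_ne_of_ne hij hki.symm, dl_anti]
    have c3 : dl i j (swap k i e.1) (swap k i e.2) = -dl j k e.1 e.2 := by
      rw [dl_perm, Equiv.swap_inv, Equiv.swap_apply_right,
        Equiv.swap_apply_of_ne_of_ne hjk hij.symm, dl_anti]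
    have s1 : ∀ y, swap j k (swap i j y) = swap k i (swap j k y) := by
      intro y; simp only [Equiv.swap_apply_def]; split_ifs <;> simp_all
    have s2 : ∀ y, swap i j (swap k i y) = swap k i (swap j k y) := by
      intro y; simp only [Equiv.swap_apply_def]; split_ifs <;> simp_all
    rw [c1, c2, c3, s1, s1, s2, s2]
    have T : xx i j * xx j k * p.2 (swap k i (swap j k e.1), swap k i (swap j k e.2))
      + xx j k * xx k i * p.2 (swap k i (swap j k e.1), swap k i (swap j k e.2))
      + xx k i * xx i j * p.2 (swap k i (swap j k e.1), swap k i (swap j k e.2)) = 0 := by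
      rw [← add_mul, ← add_mul, xx_tri hij hjk hki, zero_mul]
    simp only [neg_smul]
    rw [show (0 : Module.End ℚ (FK n × (Letter n → FK n))) p = 0 from rfl]
    simp only [Prod.snd_zero, Pi.zero_apply]
    rw [← T]
    abel

/-- The representation of `𝓔ₙ` on `E × (pairs → E)`. -/
noncomputable def nabRep (n : ℕ) : FK n →ₐ[ℚ] Module.End ℚ (FK n × (Letter n → FK n)) :=
  liftE nabOp (fun i j _ => nab_anti i j) (fun i j _ => nab_sq i j)
    (fun _ _ _ _ _ _ hik hil hjk hjl => nab_comm hik hil hjk hjl)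
    (fun _ _ _ hij hjk hki => nab_tri hij hjk hki)

/-- The derivation in the direction `e`. -/
noncomputable def nabla (e : Letter n) : FK n →ₗ[ℚ] FK n where
  toFun u := (nabRep n u (1, 0)).2 e
  map_add' u v := by simp
  map_smul' c u := by simp

lemma nabRep_fst (i j : Fin n) (hij : i ≠ j) (p : FK n × (Letter n → FK n)) :
    (nabRep n (xx i j) p).1 = xx i j * p.1 := by
  rw [nabRep, liftE_xx _ _ _ _ _ hij, nabOp_fst]

lemma nabla_one (e : Letter n) : nabla e (1 : FK n) = 0 := by
  simp [nabla]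

lemma nabRep_fst_evW (w : List (Letter n)) (hw : ∀ a ∈ w, a.1 ≠ a.2) :
    (nabRep n (evW w) (1, 0)).1 = evW w := by
  induction w with
  | nil => simp [evW]
  | cons a w ih =>
    have e : evW (a :: w) = xx a.1 a.2 * evW w := by simp [evW]
    rw [e, map_mul, Module.End.mul_apply, nabRep_fst _ _ (hw a List.mem_cons_self),
      ih fun b hb => hw b (List.mem_cons_of_mem _ hb)]

lemma nabla_cons (e a : Letter n) (w : List (Letter n)) (ha : a.1 ≠ a.2)
    (hw : ∀ b ∈ w, b.1 ≠ b.2) :
    nabla e (evW (a :: w)) = (dl a.1 a.2 e.1 e.2) • evW w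
      + xx a.1 a.2 * nabla (swap a.1 a.2 e.1, swap a.1 a.2 e.2) (evW w) := by
  have e' : evW (a :: w) = xx a.1 a.2 * evW w := by simp [evW]
  rw [e']
  change (nabRep n (xx a.1 a.2 * evW w) (1, 0)).2 e = _
  rw [map_mul, Module.End.mul_apply]
  rw [nabRep, liftE_xx _ _ _ _ _ ha, nabOp_snd]
  rw [← nabRep, nabRep_fst_evW w hw]
  rfl

end Pool.Agent.Lib.MP_9e57f8_al
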