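import Pool.Agent.Lib.MP_9e57f8_al.Tables
import Pool.Agent.Lib.MP_9e57f8_al.Data2

/-!
# Small identities (checks)
-/

namespace Pool.Agent.Lib.MP_9e57f8_al

lemma z158_chk : chkX lib0.get LFf RTf 5 6 8 1 z158 [944106661370150943, 945087425742127137, 1195107574670704801, 944106660826465249, 945087425198441439, 887736898785919967, 887736900102669281, 1195107573759231327, 940654195722438047, 940654194377901537, 940728961103842015, 325772107688725471, 327742432525700065, 362786067126176737, 887455423714839521, 2652866477644076001, 940583825568978593, 329290544991983711, 329290546308733025, 944106654747368033, 945087419119344223] = true := by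
  decide +kernel

lemma z159_chk : chkX lib0.get LFf RTf 5 6 8 1 z159 [98098428937264799, 1569601227595226975, 6130878343569441, 98098427863539745] = true := by
  decide +kernel

lemma z160_chk : chkX lib0.get LFf RTf 5 6 8 1 z160 [99373864506120735, 99373864582142497, 99373864636930593, 1590021357479434847, 1590021357555456609, 1590021357610244705, 6210045261404833, 6210045337426591, 6210045392214687, 99373861284911777, 99373861360933535, 99373861415721631] = true := by
  decide +kernel

lemma z161_chk : chkX lib0.get LFf RTf 5 6 8 1 z161 [99730107347261921, 99730107423283679, 99730107478071775, 1595694837478758881, 1595694837554780639, 1595694837609568735, 99725708227009057, 99725708303030815, 99725708357818911, 99725709300750943, 99725709376772705, 99725709431560801, 6232036567702175, 6232036643723937, 6232036698512033, 99725705005800095, 99725705081821857, 99725705136609953, 98384303034228321, 1574153205734219361, 98379903913975457, 98379904987717471, 6148471603355679, 98379902840250399] = true := by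
  decide +kernel

lemma z162_chk : chkX lib0.get LFf RTf 4 6 8 1 z162 [98120418096078687] = true := by
  decide +kernel

lemma z163_chk : chkX lib0.get LFf RTf 4 6 8 1 z163 [98098427863522911] = true := by
  decide +kernel

lemma z164_chk : chkX lib0.get LFf RTf 4 6 8 1 z164 [99400249563961951, 99400249639983713, 99400249694771809] = true := by
  decide +kernel

lemma z165_chk : chkX lib0.get LFf RTf 4 6 8 1 z165 [99373861284895199, 99373861360916961, 99373861415705057] = true := by
  decide +kernel

lemma z166_chk : chkX lib0.get LFf RTf 4 6 8 1 z166 [1214322632389574751, 331617105397170335, 332597869769146529, 1215303396733764959, 652423812081796447, 652423812140254561, 25372330735984481, 26353095107960671] = true := by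
  decide +kernel

lemma z167_chk : chkX lib0.get LFf RTf 4 6 8 1 z167 [6126479223316513] = true := by
  decide +kernel

lemma z168_chk : chkX lib0.get LFf RTf 4 6 8 1 z168 [6205643993668257, 6205644069690015, 6205644124478111] = true := by
  decide +kernel

lemma z169_chk : chkX lib0.get LFf RTf 3 6 8 1 z169 [] = true := by
  decide +kernel

lemma z170_chk : chkX lib0.get LFf RTf 3 6 8 1 z170 [] = true := by
  decide +kernel

lemma z171_chk : chkX lib0.get LFf RTf 3 6 8 1 z171 [] = true := by
  decide +kernel

lemma z172_chk : chkX lib0.get LFf RTf 3 6 8 1 z172 [] = true := by
  decide +kernel

lemma z173_chk : chkX lib0.get LFf RTf 5 6 8 1 z173 [332518712585241953, 332597877422441823, 325912844578080543, 325899653328161759] = true := by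
  decide +kernel

lemma z174_chk : chkX lib0.get LFf RTf 5 6 8 1 z174 [1557264709338546401, 1281379649743505439, 97328771931070303, 116143614905573217] = true := by
  decide +kernel

lemma z175_chk : chkX lib0.get LFf RTf 5 6 8 1 z175 [2116986498637906017, 2116986498707899809, 132310835897588319, 132310835969153633] = true := by
  decide +kernel

lemma z176_chk : chkX lib0.get LFf RTf 5 6 8 1 z176 [1557198737567137953, 992093741355386591, 97324372810817375, 116073245087653729, 1557264707191086945, 1857840399899467615] = true := by
  decide +kernel

lemma z177_chk : chkX lib0.get LFf RTf 5 6 8 1 z177 [2116920526866497569, 2116920526936228897, 132306436777335391, 132306436848900705, 2116986494342961761, 2116986494414527071] = true := by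
  decide +kernel

lemma z178_chk : chkX lib0.get LFf RTf 5 6 8 1 z178 [332518710391358815, 332597875228558689] = true := by
  decide +kernel

end Pool.Agent.Lib.MP_9e57f8_al
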