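import Pool.Agent.Lib.MP_9e57f8_al.LibData
import Pool.Agent.Lib.MP_9e57f8_al.Data2

/-!
# The extended library (generated data)
-/

namespace Pool.Agent.Lib.MP_9e57f8_al

/-- the second library -/
def lbK : LTr := .nd (.nd (.nd (.nd (.lf) 158 11 z158 [] (.lf)) 159 11 z159 [] (.nd (.lf) 160 11 z160 [] (.lf))) 161 11 z161 [] (.nd (.nd (.lf) 162 10 z162 [] (.lf)) 163 10 z163 [] (.nd (.lf) 164 10 z164 [] (.lf)))) 165 10 z165 [] (.nd (.nd (.nd (.lf) 166 10 z166 [] (.lf)) 167 10 z167 [] (.nd (.lf) 168 10 z168 [] (.lf))) 169 9 z169 [] (.nd (.nd (.lf) 170 9 z170 [] (.lf)) 171 9 z171 [] (.nd (.lf) 172 9 z172 [] (.lf))))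

/-- the combined library -/
def lib1 : Lb := fun i => cond (Nat.ble i 157) (lib0.get i) (lbK.get i)

end Pool.Agent.Lib.MP_9e57f8_al
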