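import Pool.Agent.Lib.MP_9e57f8_al.Tabs
import Pool.Agent.Lib.MP_9e57f8_al.SmallCheck
import Pool.Agent.Lib.MP_9e57f8_al.SmallData

/-!
# Small identities
-/

namespace Pool.Agent.Lib.MP_9e57f8_al

lemma z158_ok : evP 11 (unps z158) = 0 := by
  have h := chkX_spec (Ω := 1) (N := 5) (M := 6) lib0_ok (by norm_num)
    (fun i hi => LFf_ok i (by omega)) RTf_ok z158_chk
  rwa [one_mul] at h

lemma z159_ok : evP 11 (unps z159) = 0 := by
  have h := chkX_spec (Ω := 1) (N := 5) (M := 6) lib0_ok (by norm_num)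
    (fun i hi => LFf_ok i (by omega)) RTf_ok z159_chk
  rwa [one_mul] at h

lemma z160_ok : evP 11 (unps z160) = 0 := by
  have h := chkX_spec (Ω := 1) (N := 5) (M := 6) lib0_ok (by norm_num)
    (fun i hi => LFf_ok i (by omega)) RTf_ok z160_chk
  rwa [one_mul] at h

lemma z161_ok : evP 11 (unps z161) = 0 := by
  have h := chkX_spec (Ω := 1) (N := 5) (M := 6) lib0_ok (by norm_num)
    (fun i hi => LFf_ok i (by omega)) RTf_ok z161_chk
  rwa [one_mul] at h

lemma z162_ok : evP 10 (unps z162) = 0 := by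
  have h := chkX_spec (Ω := 1) (N := 4) (M := 6) lib0_ok (by norm_num)
    (fun i hi => LFf_ok i (by omega)) RTf_ok z162_chk
  rwa [one_mul] at h

lemma z163_ok : evP 10 (unps z163) = 0 := by
  have h := chkX_spec (Ω := 1) (N := 4) (M := 6) lib0_ok (by norm_num)
    (fun i hi => LFf_ok i (by omega)) RTf_ok z163_chk
  rwa [one_mul] at h

lemma z164_ok : evP 10 (unps z164) = 0 := by
  have h := chkX_spec (Ω := 1) (N := 4) (M := 6) lib0_ok (by norm_num)
    (fun i hi => LFf_ok i (by omega)) RTf_ok z164_chk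
  rwa [one_mul] at h

lemma z165_ok : evP 10 (unps z165) = 0 := by
  have h := chkX_spec (Ω := 1) (N := 4) (M := 6) lib0_ok (by norm_num)
    (fun i hi => LFf_ok i (by omega)) RTf_ok z165_chk
  rwa [one_mul] at h

lemma z166_ok : evP 10 (unps z166) = 0 := by
  have h := chkX_spec (Ω := 1) (N := 4) (M := 6) lib0_ok (by norm_num)
    (fun i hi => LFf_ok i (by omega)) RTf_ok z166_chk
  rwa [one_mul] at h

lemma z167_ok : evP 10 (unps z167) = 0 := by
  have h := chkX_spec (Ω := 1) (N := 4) (M := 6) lib0_ok (by norm_num)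
    (fun i hi => LFf_ok i (by omega)) RTf_ok z167_chk
  rwa [one_mul] at h

lemma z168_ok : evP 10 (unps z168) = 0 := by
  have h := chkX_spec (Ω := 1) (N := 4) (M := 6) lib0_ok (by norm_num)
    (fun i hi => LFf_ok i (by omega)) RTf_ok z168_chk
  rwa [one_mul] at h

lemma z169_ok : evP 9 (unps z169) = 0 := by
  have h := chkX_spec (Ω := 1) (N := 3) (M := 6) lib0_ok (by norm_num)
    (fun i hi => LFf_ok i (by omega)) RTf_ok z169_chk
  rwa [one_mul] at h

lemma z170_ok : evP 9 (unps z170) = 0 := by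
  have h := chkX_spec (Ω := 1) (N := 3) (M := 6) lib0_ok (by norm_num)
    (fun i hi => LFf_ok i (by omega)) RTf_ok z170_chk
  rwa [one_mul] at h

lemma z171_ok : evP 9 (unps z171) = 0 := by
  have h := chkX_spec (Ω := 1) (N := 3) (M := 6) lib0_ok (by norm_num)
    (fun i hi => LFf_ok i (by omega)) RTf_ok z171_chk
  rwa [one_mul] at h

lemma z172_ok : evP 9 (unps z172) = 0 := by
  have h := chkX_spec (Ω := 1) (N := 3) (M := 6) lib0_ok (by norm_num)
    (fun i hi => LFf_ok i (by omega)) RTf_ok z172_chk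
  rwa [one_mul] at h

lemma z173_ok : evP 11 (unps z173) = 0 := by
  have h := chkX_spec (Ω := 1) (N := 5) (M := 6) lib0_ok (by norm_num)
    (fun i hi => LFf_ok i (by omega)) RTf_ok z173_chk
  rwa [one_mul] at h

lemma z174_ok : evP 11 (unps z174) = 0 := by
  have h := chkX_spec (Ω := 1) (N := 5) (M := 6) lib0_ok (by norm_num)
    (fun i hi => LFf_ok i (by omega)) RTf_ok z174_chk
  rwa [one_mul] at h

lemma z175_ok : evP 11 (unps z175) = 0 := by
  have h := chkX_spec (Ω := 1) (N := 5) (M := 6) lib0_ok (by norm_num)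
    (fun i hi => LFf_ok i (by omega)) RTf_ok z175_chk
  rwa [one_mul] at h

lemma z176_ok : evP 11 (unps z176) = 0 := by
  have h := chkX_spec (Ω := 1) (N := 5) (M := 6) lib0_ok (by norm_num)
    (fun i hi => LFf_ok i (by omega)) RTf_ok z176_chk
  rwa [one_mul] at h

lemma z177_ok : evP 11 (unps z177) = 0 := by
  have h := chkX_spec (Ω := 1) (N := 5) (M := 6) lib0_ok (by norm_num)
    (fun i hi => LFf_ok i (by omega)) RTf_ok z177_chk
  rwa [one_mul] at h

lemma z178_ok : evP 11 (unps z178) = 0 := by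
  have h := chkX_spec (Ω := 1) (N := 5) (M := 6) lib0_ok (by norm_num)
    (fun i hi => LFf_ok i (by omega)) RTf_ok z178_chk
  rwa [one_mul] at h

/-- all nodes satisfy a property -/
def LTr.AllP (Q : ℕ × List ℕ → Prop) : LTr → Prop
  | .lf => True
  | .nd l _ deg poly _ r => l.AllP Q ∧ Q (deg, poly) ∧ r.AllP Q

lemma LTr.get_allP {Q : ℕ × List ℕ → Prop} (h0 : Q (0, [])) (t : LTr) (h : t.AllP Q) (n : ℕ) :
    Q (t.get n) := by
  induction t with
  | lf => exact h0
  | nd l key deg poly cert r ihl ihr =>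
    obtain ⟨h1, h2, h3⟩ := h
    rw [LTr.get]
    cases Nat.ble key n with
    | false => exact ihl h1
    | true =>
      cases Nat.ble n key with
      | false => exact ihr h3
      | true => exact h2

lemma lib1_ok : LbOK lib1 := by
  intro i
  change evP (cond (Nat.ble i 157) (lib0.get i) (lbK.get i)).1
    (unps (cond (Nat.ble i 157) (lib0.get i) (lbK.get i)).2) = 0
  cases Nat.ble i 157 with
  | true => exact lib0_ok i
  | false =>
    refine LTr.get_allP (Q := fun q => evP q.1 (unps q.2) = 0) rfl lbK ?_ i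
    simp only [lbK, LTr.AllP, true_and, and_true]
    simp only [z158_ok, z159_ok, z160_ok, z161_ok, z162_ok, z163_ok, z164_ok, z165_ok, z166_ok, z167_ok, z168_ok, z169_ok, z170_ok, z171_ok, z172_ok, and_self]

end Pool.Agent.Lib.MP_9e57f8_al
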