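import Mathlib

/-!
# Fomin–Kirillov algebras, graph subalgebras and the multiplication map (MP_9e57f8_al)

All definitions used by the statement of the result are in this file.
-/

namespace Pool.Agent.Lib.MP_9e57f8_al

/-- Ordered pairs of distinct elements of `{0, …, n-1}`; they index the generators. -/
abbrev Pair (n : ℕ) : Type := {p : Fin n × Fin n // p.1 ≠ p.2}

/-- The free generator attached to the ordered pair `(i, j)`, `i ≠ j`. -/
noncomputable def gen {n : ℕ} (i j : Fin n) (h : i ≠ j) : FreeAlgebra ℚ (Pair n) :=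
  FreeAlgebra.ι ℚ ⟨(i, j), h⟩

/-- The defining relations of the Fomin–Kirillov algebra. -/
inductive FKRel (n : ℕ) : FreeAlgebra ℚ (Pair n) → FreeAlgebra ℚ (Pair n) → Prop
  | antisymm (i j : Fin n) (h : i ≠ j) : FKRel n (gen i j h) (-gen j i h.symm)
  | sq (i j : Fin n) (h : i ≠ j) : FKRel n (gen i j h * gen i j h) 0
  | comm (i j k l : Fin n) (hij : i ≠ j) (hkl : k ≠ l) (hik : i ≠ k) (hil : i ≠ l)
      (hjk : j ≠ k) (hjl : j ≠ l) :
      FKRel n (gen i j hij * gen k l hkl) (gen k l hkl * gen i j hij)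
  | tri (i j k : Fin n) (hij : i ≠ j) (hjk : j ≠ k) (hki : k ≠ i) :
      FKRel n (gen i j hij * gen j k hjk + gen j k hjk * gen k i hki
        + gen k i hki * gen i j hij) 0

namespace Statement

/-- The Fomin–Kirillov algebra `𝓔ₙ` over `ℚ`: the free algebra modulo the relations `FKRel n`. -/
def FK (n : ℕ) : Type := RingQuot (FKRel n)

/-- The ring structure of `𝓔ₙ` (the one of the quotient of the free algebra). -/
noncomputable instance instRingFK (n : ℕ) : Ring (FK n) := RingQuot.instRing (FKRel n)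

/-- The `ℚ`-algebra structure of `𝓔ₙ` (the one of the quotient of the free algebra). -/
noncomputable instance instAlgebraFK (n : ℕ) : Algebra ℚ (FK n) :=
  RingQuot.instAlgebra (FKRel n)

/-- The quotient map from the free algebra onto `𝓔ₙ`. -/
noncomputable def quot (n : ℕ) : FreeAlgebra ℚ (Pair n) →ₐ[ℚ] FK n :=
  RingQuot.mkAlgHom ℚ (FKRel n)

/-- The generator `x_{ij}` of `𝓔ₙ`. -/
noncomputable def x {n : ℕ} (i j : Fin n) (h : i ≠ j) : FK n := quot n (gen i j h)

/-- The subalgebra `𝓔_G` of `𝓔ₙ` generated by the `x_{ij}` with `{i, j}` an edge of `G`. -/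
noncomputable def graphSubalgebra {n : ℕ} (G : SimpleGraph (Fin n)) : Subalgebra ℚ (FK n) :=
  Algebra.adjoin ℚ {y | ∃ (i j : Fin n) (h : G.Adj i j), y = x i j h.ne}

/-- The multiplication map `𝓔_{G₁} ⊗ 𝓔_{G₂} → 𝓔ₙ`, `a ⊗ b ↦ a b`. -/
noncomputable def mu {n : ℕ} (G₁ G₂ : SimpleGraph (Fin n)) :
    TensorProduct ℚ (graphSubalgebra G₁) (graphSubalgebra G₂) →ₗ[ℚ] FK n :=
  Submodule.mulMap (Subalgebra.toSubmodule (graphSubalgebra G₁))
    (Subalgebra.toSubmodule (graphSubalgebra G₂))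

/-- The multiplication map `𝓔_{G₁} ⊗ 𝓔_{G₂} → 𝓔ₙ` is injective. -/
def MulInjective {n : ℕ} (G₁ G₂ : SimpleGraph (Fin n)) : Prop :=
  Function.Injective (mu G₁ G₂)

end Statement

end Pool.Agent.Lib.MP_9e57f8_al
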