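import Pool.Agent.Lib.MP_9e57f8_al.LibData
import Pool.Agent.Lib.MP_9e57f8_al.TabSmall
import Pool.Agent.Lib.MP_9e57f8_al.TabL
import Pool.Agent.Lib.MP_9e57f8_al.TabR5
import Pool.Agent.Lib.MP_9e57f8_al.TabR6

/-!
# The tables by length
-/

namespace Pool.Agent.Lib.MP_9e57f8_al

/-- right tables below length 2 -/
def RT2 : ℕ → Tr := fun _ => .lf

/-- right tables below length 3 -/
def RT3 : ℕ → Tr
  | 2 => rt2
  | _ => .lf

/-- right tables below length 4 -/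
def RT4 : ℕ → Tr
  | 2 => rt2
  | 3 => rt3
  | _ => .lf

/-- right tables below length 5 -/
def RT5 : ℕ → Tr
  | 2 => rt2
  | 3 => rt3
  | 4 => rt4
  | _ => .lf

/-- right tables below length 6 -/
def RT6 : ℕ → Tr
  | 2 => rt2
  | 3 => rt3
  | 4 => rt4
  | 5 => rt5
  | _ => .lf

/-- left tables below length 2 -/
def LJ2 : ℕ → Tr
  | 1 => lj1
  | _ => .lf

/-- left tables below length 3 -/
def LJ3 : ℕ → Tr
  | 1 => lj1
  | 2 => lj2
  | _ => .lf

/-- left tables below length 4 -/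
def LJ4 : ℕ → Tr
  | 1 => lj1
  | 2 => lj2
  | 3 => lj3
  | _ => .lf

/-- left tables below length 5 -/
def LJ5 : ℕ → Tr
  | 1 => lj1
  | 2 => lj2
  | 3 => lj3
  | 4 => lj4
  | _ => .lf

/-- left tables below length 6 -/
def LJ6 : ℕ → Tr
  | 1 => lj1
  | 2 => lj2
  | 3 => lj3
  | 4 => lj4
  | 5 => lj5
  | _ => .lf

/-- left tables below length 2 -/
def LF2 : ℕ → Tr := fun _ => .lf

/-- left tables below length 3 -/
def LF3 : ℕ → Tr
  | 2 => lf2
  | _ => .lf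

/-- left tables below length 4 -/
def LF4 : ℕ → Tr
  | 2 => lf2
  | 3 => lf3
  | _ => .lf

/-- left tables below length 5 -/
def LF5 : ℕ → Tr
  | 2 => lf2
  | 3 => lf3
  | 4 => lf4
  | _ => .lf

/-- right tables -/
def RTf : ℕ → Tr
  | 2 => rt2
  | 3 => rt3
  | 4 => rt4
  | 5 => rt5
  | 6 => rt6
  | _ => .lf

/-- left tables -/
def LFf : ℕ → Tr
  | 2 => lf2
  | 3 => lf3
  | 4 => lf4
  | 5 => lf5
  | _ => .lf

/-- left tables with vanishing letters -/
def LJf : ℕ → Tr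
  | 1 => lj1
  | 2 => lj2
  | 3 => lj3
  | 4 => lj4
  | 5 => lj5
  | 6 => lj6
  | _ => .lf

end Pool.Agent.Lib.MP_9e57f8_al
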