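import Pool.Agent.Lib.MP_9e57f8_al.LibCheck
import Pool.Agent.Lib.MP_9e57f8_al.ChkSmall
import Pool.Agent.Lib.MP_9e57f8_al.ChkR4
import Pool.Agent.Lib.MP_9e57f8_al.ChkR5
import Pool.Agent.Lib.MP_9e57f8_al.ChkR6
import Pool.Agent.Lib.MP_9e57f8_al.ChkL5
import Pool.Agent.Lib.MP_9e57f8_al.ChkL6

/-!
# The tables are correct
-/

namespace Pool.Agent.Lib.MP_9e57f8_al

lemma rightStep {t : Tr} {RT : ℕ → Tr} {M : ℕ}
    (hR : ∀ i, i ≤ M → ValidT 1 (RT i) i)
    (h : t.all (chkN lib0.get (fun _ => .lf) RT 1 M 6) = true) : ValidT 1 t (1 + M) :=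
  validT_of_all (fun _ _ _ h' =>
    chkN_spec lib0_ok (fun i _ => validT_lf 1 i) hR h') t h

lemma leftStep {Ω : FK 6} {t : Tr} {LT : ℕ → Tr} {N : ℕ}
    (hL : ∀ i, i ≤ N → ValidT Ω (LT i) i)
    (h : t.all (chkN lib0.get LT (fun _ => .lf) N 1 6) = true) : ValidT Ω t (N + 1) :=
  validT_of_all (fun _ _ _ h' =>
    chkN_spec lib0_ok hL (fun i _ => validT_lf 1 i) h') t h

lemma rt2_ok : ValidT 1 rt2 2 := by
  refine rightStep (M := 1) (fun i hi => ?_) rt2_all
  interval_cases i
  · exact validT_lf _ _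
  · exact validT_lf _ _

lemma rt3_ok : ValidT 1 rt3 3 := by
  refine rightStep (M := 2) (fun i hi => ?_) rt3_all
  interval_cases i
  · exact validT_lf _ _
  · exact validT_lf _ _
  · exact rt2_ok

lemma rt4_ok : ValidT 1 rt4 4 := by
  refine rightStep (M := 3) (fun i hi => ?_) rt4_all
  interval_cases i
  · exact validT_lf _ _
  · exact validT_lf _ _
  · exact rt2_ok
  · exact rt3_ok

lemma rt5_ok : ValidT 1 rt5 5 := by
  refine rightStep (M := 4) (fun i hi => ?_) rt5_all
  interval_cases i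
  · exact validT_lf _ _
  · exact validT_lf _ _
  · exact rt2_ok
  · exact rt3_ok
  · exact rt4_ok

lemma rt6_ok : ValidT 1 rt6 6 := by
  refine rightStep (M := 5) (fun i hi => ?_) rt6_all
  interval_cases i
  · exact validT_lf _ _
  · exact validT_lf _ _
  · exact rt2_ok
  · exact rt3_ok
  · exact rt4_ok
  · exact rt5_ok

lemma RTf_ok : ∀ i, i ≤ 6 → ValidT 1 (RTf i) i := by
  intro i hi
  interval_cases i
  · exact validT_lf _ _
  · exact validT_lf _ _
  · exact rt2_ok
  · exact rt3_ok
  · exact rt4_ok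
  · exact rt5_ok
  · exact rt6_ok

lemma lf2_ok : ValidT 1 lf2 2 := by
  refine leftStep (N := 1) (fun i hi => ?_) lf2_all
  interval_cases i
  · exact validT_lf _ _
  · exact validT_lf _ _

lemma lf3_ok : ValidT 1 lf3 3 := by
  refine leftStep (N := 2) (fun i hi => ?_) lf3_all
  interval_cases i
  · exact validT_lf _ _
  · exact validT_lf _ _
  · exact lf2_ok

lemma lf4_ok : ValidT 1 lf4 4 := by
  refine leftStep (N := 3) (fun i hi => ?_) lf4_all
  interval_cases i
  · exact validT_lf _ _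
  · exact validT_lf _ _
  · exact lf2_ok
  · exact lf3_ok

lemma lf5_ok : ValidT 1 lf5 5 := by
  refine leftStep (N := 4) (fun i hi => ?_) lf5_all
  interval_cases i
  · exact validT_lf _ _
  · exact validT_lf _ _
  · exact lf2_ok
  · exact lf3_ok
  · exact lf4_ok

lemma LFf_ok : ∀ i, i ≤ 5 → ValidT 1 (LFf i) i := by
  intro i hi
  interval_cases i
  · exact validT_lf _ _
  · exact validT_lf _ _
  · exact lf2_ok
  · exact lf3_ok
  · exact lf4_ok
  · exact lf5_ok

/-- the element `Ω` -/
noncomputable def Om : FK 6 := evc 12 91548624855329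

lemma Om_lx {a : ℕ} (ha : a < 16) {n : ℕ} (h : lib0.get n = (13, [16 * (16 * 91548624855329 + a) + 9])) :
    Om * lx a = 0 := by
  have h1 := lib0_ok n
  rw [h] at h1
  have e : unps [16 * (16 * 91548624855329 + a) + 9] = [(1, 16 * 91548624855329 + a)] := by
    have e1 : (16 * (16 * 91548624855329 + a) + 9) % 16 = 9 := by omega
    have e2 : (16 * (16 * 91548624855329 + a) + 9) / 16 = 16 * 91548624855329 + a := by omega
    change [(Int.subNatNat ((16 * (16 * 91548624855329 + a) + 9) % 16) 8,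
      (16 * (16 * 91548624855329 + a) + 9) / 16)] = _
    rw [e1, e2]; rfl
  simp only at h1
  rw [e, evP_cons, evP_nil, one_smul, add_zero, evc_succ] at h1
  have e1 : (16 * 91548624855329 + a) / 16 = 91548624855329 := by omega
  have e2 : (16 * 91548624855329 + a) % 16 = a := by omega
  rw [e1, e2] at h1
  exact h1

lemma Om_1 : Om * lx 1 = 0 := Om_lx (n := 153) (by norm_num) (by decide +kernel)

lemma Om_2 : Om * lx 2 = 0 := Om_lx (n := 154) (by norm_num) (by decide +kernel)

lemma Om_3 : Om * lx 3 = 0 := Om_lx (n := 155) (by norm_num) (by decide +kernel)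

lemma Om_4 : Om * lx 4 = 0 := Om_lx (n := 156) (by norm_num) (by decide +kernel)

lemma Om_5 : Om * lx 5 = 0 := Om_lx (n := 157) (by norm_num) (by decide +kernel)

lemma lj1_ok : ValidT Om lj1 1 := by
  refine validT_of_all (f := fun key val _ =>
    Nat.ble 1 key && Nat.ble key 5 && val.isEmpty) (fun key val cert h => ?_) lj1 (by decide +kernel)
  simp only [Bool.and_eq_true, List.isEmpty_iff] at h
  obtain ⟨⟨h1, h2⟩, h3⟩ := h
  have b1 := Nat.le_of_ble_eq_true h1
  have b2 := Nat.le_of_ble_eq_true h2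
  subst h3
  rw [unps, evP_nil, mul_zero, evc_one]
  symm
  interval_cases key
  · exact Om_1
  · exact Om_2
  · exact Om_3
  · exact Om_4
  · exact Om_5

lemma lj2_ok : ValidT Om lj2 2 := by
  refine leftStep (N := 1) (fun i hi => ?_) lj2_all
  interval_cases i
  · exact validT_lf _ _
  · exact lj1_ok

lemma lj3_ok : ValidT Om lj3 3 := by
  refine leftStep (N := 2) (fun i hi => ?_) lj3_all
  interval_cases i
  · exact validT_lf _ _
  · exact lj1_ok
  · exact lj2_ok

lemma lj4_ok : ValidT Om lj4 4 := by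
  refine leftStep (N := 3) (fun i hi => ?_) lj4_all
  interval_cases i
  · exact validT_lf _ _
  · exact lj1_ok
  · exact lj2_ok
  · exact lj3_ok

lemma lj5_ok : ValidT Om lj5 5 := by
  refine leftStep (N := 4) (fun i hi => ?_) lj5_all
  interval_cases i
  · exact validT_lf _ _
  · exact lj1_ok
  · exact lj2_ok
  · exact lj3_ok
  · exact lj4_ok

lemma lj6_ok : ValidT Om lj6 6 := by
  refine leftStep (N := 5) (fun i hi => ?_) lj6_all
  interval_cases i
  · exact validT_lf _ _
  · exact lj1_ok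
  · exact lj2_ok
  · exact lj3_ok
  · exact lj4_ok
  · exact lj5_ok

lemma LJf_ok : ∀ i, i ≤ 6 → ValidT Om (LJf i) i := by
  intro i hi
  interval_cases i
  · exact validT_lf _ _
  · exact lj1_ok
  · exact lj2_ok
  · exact lj3_ok
  · exact lj4_ok
  · exact lj5_ok
  · exact lj6_ok

end Pool.Agent.Lib.MP_9e57f8_al
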