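import Pool.Agent.Lib.MP_9e57f8_al.Basic

/-!
# The module `(E ⊗ E)^{S_n}` and the operators `Θ_{ij}`
-/

open scoped TensorProduct
open Equiv (swap)

namespace Pool.Agent.Lib.MP_9e57f8_al

variable {n : ℕ}

/-- The tensor square of `𝓔ₙ` (ordinary tensor product of algebras). -/
abbrev TT (n : ℕ) : Type := FK n ⊗[ℚ] FK n

/-- left factor embedding -/
noncomputable def lt (a : FK n) : TT n := a ⊗ₜ[ℚ] (1 : FK n)

/-- right factor embedding -/
noncomputable def rt (a : FK n) : TT n := (1 : FK n) ⊗ₜ[ℚ] a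

lemma lt_mul (a b : FK n) : lt (a * b) = lt a * lt b := by simp [lt]
lemma rt_mul (a b : FK n) : rt (a * b) = rt a * rt b := by simp [rt]
lemma lt_add (a b : FK n) : lt (a + b) = lt a + lt b := by simp [lt, TensorProduct.add_tmul]
lemma rt_add (a b : FK n) : rt (a + b) = rt a + rt b := by simp [rt, TensorProduct.tmul_add]
lemma lt_neg (a : FK n) : lt (-a) = -lt a := by simp [lt, TensorProduct.neg_tmul]
lemma rt_neg (a : FK n) : rt (-a) = -rt a := by simp [rt, TensorProduct.tmul_neg]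
lemma lt_zero : lt (0 : FK n) = 0 := by simp [lt]
lemma rt_zero : rt (0 : FK n) = 0 := by simp [rt]

section aux

variable {R : Type*} [Ring R]

lemma aux_sq (f p q a : R) (s1 : q * p = 0) (s2 : a * a = 0) (s3 : p = -q) :
    (f * q - a * f) * p - a * (f * q - a * f) = 0 := by
  have : (f * q - a * f) * p - a * (f * q - a * f)
      = f * (q * p) - a * f * (p + q) + (a * a) * f := by noncomm_ring
  rw [this, s1, s2, s3]; simp

lemma aux_comm (f p q a b : R) (s1 : p * q = q * p) (s2 : a * b = b * a) :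
    (f * p - b * f) * q - a * (f * p - b * f) = (f * q - a * f) * p - b * (f * q - a * f) := by
  have h1 : (f * p - b * f) * q - a * (f * p - b * f)
      = f * (p * q) - b * f * q - a * f * p + (a * b) * f := by noncomm_ring
  have h2 : (f * q - a * f) * p - b * (f * q - a * f)
      = f * (q * p) - b * f * q - a * f * p + (b * a) * f := by noncomm_ring
  rw [h1, h2, s1, s2]

lemma aux_tri (f p q r a b c : R) (T1 : a * b + b * c + c * a = 0)
    (T2 : p * q + q * r + r * p = 0) :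
    ((f * r - b * f) * (-p) - a * (f * r - b * f))
      + ((f * p - c * f) * (-q) - b * (f * p - c * f))
      + ((f * q - a * f) * (-r) - c * (f * q - a * f)) = 0 := by
  have h1 : ((f * r - b * f) * (-p) - a * (f * r - b * f))
      + ((f * p - c * f) * (-q) - b * (f * p - c * f))
      + ((f * q - a * f) * (-r) - c * (f * q - a * f))
      = (a * b + b * c + c * a) * f - f * (p * q + q * r + r * p) := by noncomm_ring
  rw [h1, T1, T2]; simp

end aux

/-- The operator `Θ_{ij}` on functions `S_n → E ⊗ E`. -/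
noncomputable def thetaOp (i j : Fin n) : Module.End ℚ (Equiv.Perm (Fin n) → TT n) where
  toFun F := fun h => F (swap i j * h) * rt (xx (h⁻¹ j) (h⁻¹ i)) - lt (xx i j) * F (swap i j * h)
  map_add' F G := by
    funext h; simp only [Pi.add_apply, add_mul, mul_add]; abel
  map_smul' c F := by
    funext h; simp [smul_sub]

lemma thetaOp_apply (i j : Fin n) (F : Equiv.Perm (Fin n) → TT n) (h : Equiv.Perm (Fin n)) :
    thetaOp i j F h =
      F (swap i j * h) * rt (xx (h⁻¹ j) (h⁻¹ i)) - lt (xx i j) * F (swap i j * h) := rfl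

lemma theta_anti (i j : Fin n) : thetaOp i j = -thetaOp j i := by
  refine LinearMap.ext fun F => funext fun h => ?_
  simp only [LinearMap.neg_apply, Pi.neg_apply, thetaOp_apply]
  rw [Equiv.swap_comm j i, xx_anti (h⁻¹ j) (h⁻¹ i), xx_anti i j, rt_neg, lt_neg]
  simp only [mul_neg, neg_mul]
  abel

lemma theta_sq (i j : Fin n) : thetaOp i j * thetaOp i j = 0 := by
  refine LinearMap.ext fun F => funext fun h => ?_
  simp only [Module.End.mul_apply, LinearMap.zero_apply, Pi.zero_apply, thetaOp_apply]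
  have e1 : swap i j * (swap i j * h) = h := by simp [← mul_assoc]
  have e2 : (swap i j * h)⁻¹ j = h⁻¹ i := by simp [mul_inv_rev]
  have e3 : (swap i j * h)⁻¹ i = h⁻¹ j := by simp [mul_inv_rev]
  rw [e1, e2, e3]
  have s1 : rt (xx (h⁻¹ i) (h⁻¹ j)) * rt (xx (h⁻¹ j) (h⁻¹ i)) = 0 := by
    rw [← rt_mul, xx_anti (h⁻¹ j) (h⁻¹ i), mul_neg, xx_sq, neg_zero, rt_zero]
  have s2 : lt (xx i j) * lt (xx i j) = 0 := by rw [← lt_mul, xx_sq, lt_zero]
  have s3 : rt (xx (h⁻¹ j) (h⁻¹ i)) = -rt (xx (h⁻¹ i) (h⁻¹ j)) := by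
    rw [xx_anti (h⁻¹ j) (h⁻¹ i), rt_neg]
  exact aux_sq _ _ _ _ s1 s2 s3

lemma theta_comm {i j k l : Fin n} (hik : i ≠ k) (hil : i ≠ l) (hjk : j ≠ k) (hjl : j ≠ l) :
    thetaOp i j * thetaOp k l = thetaOp k l * thetaOp i j := by
  refine LinearMap.ext fun F => funext fun h => ?_
  simp only [Module.End.mul_apply, thetaOp_apply]
  have ec : swap k l * (swap i j * h) = swap i j * (swap k l * h) := by
    have : swap k l * swap i j = swap i j * swap k l := by
      refine Equiv.Perm.Disjoint.commute ?_ |>.eq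
      rw [Equiv.Perm.disjoint_iff_eq_or_eq]
      intro y
      by_cases h1 : y = k
      · right; subst h1; exact Equiv.swap_apply_of_ne_of_ne hik.symm hjk.symm
      by_cases h2 : y = l
      · right; subst h2; exact Equiv.swap_apply_of_ne_of_ne hil.symm hjl.symm
      · left; exact Equiv.swap_apply_of_ne_of_ne h1 h2
    rw [← mul_assoc, this, mul_assoc]
  have e1 : (swap i j * h)⁻¹ l = h⁻¹ l := by
    simp [mul_inv_rev, Equiv.swap_apply_of_ne_of_ne hil.symm hjl.symm]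
  have e2 : (swap i j * h)⁻¹ k = h⁻¹ k := by
    simp [mul_inv_rev, Equiv.swap_apply_of_ne_of_ne hik.symm hjk.symm]
  have e3 : (swap k l * h)⁻¹ i = h⁻¹ i := by
    simp [mul_inv_rev, Equiv.swap_apply_of_ne_of_ne hik hil]
  have e4 : (swap k l * h)⁻¹ j = h⁻¹ j := by
    simp [mul_inv_rev, Equiv.swap_apply_of_ne_of_ne hjk hjl]
  rw [ec, e1, e2, e3, e4]
  have s1 : rt (xx (h⁻¹ l) (h⁻¹ k)) * rt (xx (h⁻¹ j) (h⁻¹ i))
      = rt (xx (h⁻¹ j) (h⁻¹ i)) * rt (xx (h⁻¹ l) (h⁻¹ k)) := by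
    rw [← rt_mul, ← rt_mul, xx_comm] <;> simp [hik.symm, hil.symm, hjk.symm, hjl.symm]
  have s2 : lt (xx i j) * lt (xx k l) = lt (xx k l) * lt (xx i j) := by
    rw [← lt_mul, ← lt_mul, xx_comm hik hil hjk hjl]
  exact aux_comm _ _ _ _ _ s1 s2

lemma theta_tri {i j k : Fin n} (hij : i ≠ j) (hjk : j ≠ k) (hki : k ≠ i) :
    thetaOp i j * thetaOp j k + thetaOp j k * thetaOp k i + thetaOp k i * thetaOp i j = 0 := by
  refine LinearMap.ext fun F => funext fun h => ?_
  simp only [Module.End.mul_apply, LinearMap.add_apply, Pi.add_apply, LinearMap.zero_apply,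
    Pi.zero_apply, thetaOp_apply]
  have g1 : swap k i * (swap j k * h) = swap j k * (swap i j * h) := by
    rw [← mul_assoc, ← mul_assoc]; congr 1
    ext y; simp only [Equiv.Perm.mul_apply, Equiv.swap_apply_def]
    split_ifs <;> simp_all
  have g2 : swap i j * (swap k i * h) = swap j k * (swap i j * h) := by
    rw [← mul_assoc, ← mul_assoc]; congr 1
    ext y; simp only [Equiv.Perm.mul_apply, Equiv.swap_apply_def]
    split_ifs <;> simp_all
  have e1 : (swap i j * h)⁻¹ k = h⁻¹ k := by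
    simp [mul_inv_rev, Equiv.swap_apply_of_ne_of_ne hki hjk.symm]
  have e2 : (swap i j * h)⁻¹ j = h⁻¹ i := by simp [mul_inv_rev]
  have e3 : (swap j k * h)⁻¹ i = h⁻¹ i := by
    simp [mul_inv_rev, Equiv.swap_apply_of_ne_of_ne hij hki.symm]
  have e4 : (swap j k * h)⁻¹ k = h⁻¹ j := by simp [mul_inv_rev]
  have e5 : (swap k i * h)⁻¹ j = h⁻¹ j := by
    simp [mul_inv_rev, Equiv.swap_apply_of_ne_of_ne hjk hij.symm]
  have e6 : (swap k i * h)⁻¹ i = h⁻¹ k := by simp [mul_inv_rev]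
  rw [g1, g2, e1, e2, e3, e4, e5, e6]
  have hij' : h⁻¹ i ≠ h⁻¹ j := by simpa using hij
  have hjk' : h⁻¹ j ≠ h⁻¹ k := by simpa using hjk
  have hki' : h⁻¹ k ≠ h⁻¹ i := by simpa using hki
  have t1 := xx_tri hij hjk hki
  have t2 := xx_tri hij' hjk' hki'
  have a1 : xx (h⁻¹ k) (h⁻¹ j) = -xx (h⁻¹ j) (h⁻¹ k) := xx_anti _ _
  have a2 : xx (h⁻¹ j) (h⁻¹ i) = -xx (h⁻¹ i) (h⁻¹ j) := xx_anti _ _
  have a3 : xx (h⁻¹ i) (h⁻¹ k) = -xx (h⁻¹ k) (h⁻¹ i) := xx_anti _ _
  rw [a1, a2, a3]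
  simp only [rt_neg]
  have T1 : lt (xx i j) * lt (xx j k) + lt (xx j k) * lt (xx k i) + lt (xx k i) * lt (xx i j)
      = 0 := by
    rw [← lt_mul, ← lt_mul, ← lt_mul, ← lt_add, ← lt_add, t1, lt_zero]
  have T2 : rt (xx (h⁻¹ i) (h⁻¹ j)) * rt (xx (h⁻¹ j) (h⁻¹ k))
      + rt (xx (h⁻¹ j) (h⁻¹ k)) * rt (xx (h⁻¹ k) (h⁻¹ i))
      + rt (xx (h⁻¹ k) (h⁻¹ i)) * rt (xx (h⁻¹ i) (h⁻¹ j)) = 0 := by
    rw [← rt_mul, ← rt_mul, ← rt_mul, ← rt_add, ← rt_add, t2, rt_zero]
  exact aux_tri _ _ _ _ _ _ _ T1 T2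

end Pool.Agent.Lib.MP_9e57f8_al
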