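import Pool.Agent.Lib.MP_9e57f8_al.Defs

/-!
# The working definitions agree with those of the statement
-/

namespace Pool.Agent.Lib.MP_9e57f8_al

theorem statement_not_injective {n : ℕ} {G₁ G₂ : SimpleGraph (Fin n)}
    (h : ¬ Function.Injective (mu G₁ G₂)) : ¬ Statement.MulInjective G₁ G₂ := by
  exact h

end Pool.Agent.Lib.MP_9e57f8_al
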