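import Pool.Agent.Lib.MP_9e57f8_al.Theta

/-!
# The elements `Z(w)` and the criterion for non-injectivity of the multiplication map
-/

open scoped TensorProduct
open Equiv (swap)

namespace Pool.Agent.Lib.MP_9e57f8_al

variable {n : ℕ}

/-- The representation `Θ` of `𝓔ₙ` on functions `S_n → E ⊗ E`. -/
noncomputable def Theta (n : ℕ) : FK n →ₐ[ℚ] Module.End ℚ (Equiv.Perm (Fin n) → TT n) :=
  liftE thetaOp (fun i j _ => theta_anti i j) (fun i j _ => theta_sq i j)
    (fun _ _ _ _ _ _ hik hil hjk hjl => theta_comm hik hil hjk hjl)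
    (fun _ _ _ hij hjk hki => theta_tri hij hjk hki)

lemma Theta_xx (i j : Fin n) : Theta n (xx i j) = thetaOp i j := by
  by_cases h : i = j
  · subst h
    rw [xx_self, map_zero]
    refine LinearMap.ext fun F => funext fun h => ?_
    simp [thetaOp_apply, xx_self, lt_zero, rt_zero]
  · exact liftE_xx _ _ _ _ _ h

/-- letters: ordered pairs of indices -/
abbrev Letter (n : ℕ) : Type := Fin n × Fin n

/-- evaluation of a word, first letter leftmost -/
noncomputable def evW (w : List (Letter n)) : FK n := (w.map fun a => xx a.1 a.2).prod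

/-- group degree of a reversed word -/
def grp : List (Letter n) → Equiv.Perm (Fin n)
  | [] => 1
  | a :: r => grp r * swap a.1 a.2

/-- `y_w` for the reversed word -/
noncomputable def Yr : List (Letter n) → FK n
  | [] => 1
  | a :: r => xx (grp r a.1) (grp r a.2) * Yr r

/-- `Z(w)` for the reversed word -/
noncomputable def Zr : List (Letter n) → TT n
  | [] => 1
  | a :: r => Zr r * rt (xx a.1 a.2) - lt (xx (grp r a.1) (grp r a.2)) * Zr r

/-- evaluation of the word from the reversed list -/
noncomputable def Cr : List (Letter n) → FK n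
  | [] => 1
  | a :: r => Cr r * xx a.1 a.2

/-- the base vector -/
noncomputable def base (n : ℕ) : Equiv.Perm (Fin n) → TT n := Pi.single 1 1

lemma Theta_Yr (r : List (Letter n)) : Theta n (Yr r) (base n) = Pi.single (grp r) (Zr r) := by
  induction r with
  | nil => simp [Yr, grp, Zr, base]
  | cons a r ih =>
    rw [Yr, map_mul, Module.End.mul_apply, ih, Theta_xx]
    funext h
    rw [thetaOp_apply, grp, Zr]
    have key : swap (grp r a.1) (grp r a.2) * h = grp r ↔ h = grp r * swap a.1 a.2 := by
      have e : swap (grp r a.1) (grp r a.2) = grp r * swap a.1 a.2 * (grp r)⁻¹ := by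
        rw [Equiv.swap_apply_apply]
      rw [e]
      constructor
      · intro hh
        have := congrArg (fun t => (grp r * swap a.1 a.2 * (grp r)⁻¹)⁻¹ * t) hh
        simpa [mul_assoc, mul_inv_rev] using this
      · rintro rfl
        simp [mul_assoc]
    by_cases hh : h = grp r * swap a.1 a.2
    · subst hh
      rw [key.2 rfl, Pi.single_eq_same, Pi.single_eq_same]
      have i1 : (grp r * swap a.1 a.2)⁻¹ (grp r a.2) = a.1 := by
        simp [mul_inv_rev]
      have i2 : (grp r * swap a.1 a.2)⁻¹ (grp r a.1) = a.2 := by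
        simp [mul_inv_rev]
      rw [i1, i2]
    · rw [Pi.single_eq_of_ne hh, Pi.single_eq_of_ne (fun h' => hh (key.1 h'))]
      simp

/-- multiplication map on the tensor square -/
noncomputable def mulT (n : ℕ) : TT n →ₗ[ℚ] FK n := LinearMap.mul' ℚ (FK n)

lemma mulT_mul_rt (t : TT n) (a : FK n) : mulT n (t * rt a) = mulT n t * a := by
  induction t using TensorProduct.induction_on with
  | zero => simp
  | tmul u v => simp [mulT, rt, mul_assoc]
  | add s t hs ht => rw [add_mul, map_add, hs, ht, map_add, add_mul]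

lemma mulT_lt_mul (t : TT n) (a : FK n) : mulT n (lt a * t) = a * mulT n t := by
  induction t using TensorProduct.induction_on with
  | zero => simp
  | tmul u v => simp [mulT, lt, mul_assoc]
  | add s t hs ht => rw [mul_add, map_add, hs, ht, map_add, mul_add]

lemma mulT_Zr (a : Letter n) (r : List (Letter n)) : mulT n (Zr (a :: r)) = 0 := by
  induction r generalizing a with
  | nil =>
    rw [Zr, map_sub, mulT_mul_rt, mulT_lt_mul]
    simp [Zr, grp, mulT, Algebra.TensorProduct.one_def]
  | cons b r ih =>
    rw [Zr, map_sub, mulT_mul_rt, mulT_lt_mul, ih b]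
    simp

/-- augmentation -/
noncomputable def eps (n : ℕ) : FK n →ₐ[ℚ] ℚ :=
  liftE (fun _ _ => 0) (by simp) (by simp) (by simp) (by simp)

lemma eps_xx (i j : Fin n) : eps n (xx i j) = 0 := by
  by_cases h : i = j
  · subst h; simp [xx_self]
  · exact liftE_xx _ _ _ _ _ h

/-- `(ε ⊗ id)` -/
noncomputable def epsL (n : ℕ) : TT n →ₐ[ℚ] FK n :=
  Algebra.TensorProduct.lift ((Algebra.ofId ℚ (FK n)).comp (eps n)) (AlgHom.id ℚ (FK n))
    (fun a b => by
      simp only [AlgHom.comp_apply, AlgHom.id_apply]
      exact Algebra.commutes _ _)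

lemma epsL_lt (i j : Fin n) : epsL n (lt (xx i j)) = 0 := by
  simp [epsL, lt, eps_xx]

lemma epsL_rt (a : FK n) : epsL n (rt a) = a := by
  simp [epsL, rt]

lemma epsL_Zr (r : List (Letter n)) : epsL n (Zr r) = Cr r := by
  induction r with
  | nil => simp [Zr, Cr]
  | cons a r ih =>
    rw [Zr, Cr, map_sub, map_mul, map_mul, epsL_lt, epsL_rt, ih]
    simp

end Pool.Agent.Lib.MP_9e57f8_al
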