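import Pool.Agent.Lib.MP_9e57f8_al.MainX
import Pool.Agent.Lib.MP_9e57f8_al.FlatX
import Pool.Agent.Lib.MP_9e57f8_al.Deriv

/-!
# `X = 0` in `𝓔₆`
-/

namespace Pool.Agent.Lib.MP_9e57f8_al

/-- the test for a derivation of `X` -/
def chkNab (e : Letter 6) (s : ℤ) (z : List ℕ) : Bool :=
  isE (nrm 8 (addS s z (nabP 12 e (unps xS))))

lemma chkNab_spec {e : Letter 6} {s : ℤ} {z : List ℕ} (hz : evP 11 (unps z) = 0)
    (h : chkNab e s z = true) : nabla e (evP 12 (unps xS)) = 0 := by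
  have h1 := evP_of_isE (k := 11) h
  rw [evP_addS, hz, smul_zero, zero_add, nabP_spec 11] at h1
  exact h1

lemma evP_unps_nil : evP 11 (unps []) = 0 := rfl

lemma nb22 : nabla ((2, 2) : Letter 6) (evP 12 (unps xS)) = 0 :=
  chkNab_spec evP_unps_nil (by decide +kernel : chkNab (2, 2) 1 [] = true)

lemma nb23 : nabla ((2, 3) : Letter 6) (evP 12 (unps xS)) = 0 :=
  chkNab_spec z178_ok (by decide +kernel : chkNab (2, 3) 1 z178 = true)

lemma nb24 : nabla ((2, 4) : Letter 6) (evP 12 (unps xS)) = 0 :=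
  chkNab_spec z174_ok (by decide +kernel : chkNab (2, 4) 1 z174 = true)

lemma nb25 : nabla ((2, 5) : Letter 6) (evP 12 (unps xS)) = 0 :=
  chkNab_spec z175_ok (by decide +kernel : chkNab (2, 5) 1 z175 = true)

lemma nb32 : nabla ((3, 2) : Letter 6) (evP 12 (unps xS)) = 0 :=
  chkNab_spec z178_ok (by decide +kernel : chkNab (3, 2) (-1) z178 = true)

lemma nb33 : nabla ((3, 3) : Letter 6) (evP 12 (unps xS)) = 0 :=
  chkNab_spec evP_unps_nil (by decide +kernel : chkNab (3, 3) 1 [] = true)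

lemma nb34 : nabla ((3, 4) : Letter 6) (evP 12 (unps xS)) = 0 :=
  chkNab_spec z176_ok (by decide +kernel : chkNab (3, 4) 1 z176 = true)

lemma nb35 : nabla ((3, 5) : Letter 6) (evP 12 (unps xS)) = 0 :=
  chkNab_spec z177_ok (by decide +kernel : chkNab (3, 5) 1 z177 = true)

lemma nb42 : nabla ((4, 2) : Letter 6) (evP 12 (unps xS)) = 0 :=
  chkNab_spec z174_ok (by decide +kernel : chkNab (4, 2) (-1) z174 = true)

lemma nb43 : nabla ((4, 3) : Letter 6) (evP 12 (unps xS)) = 0 :=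
  chkNab_spec z176_ok (by decide +kernel : chkNab (4, 3) (-1) z176 = true)

lemma nb44 : nabla ((4, 4) : Letter 6) (evP 12 (unps xS)) = 0 :=
  chkNab_spec evP_unps_nil (by decide +kernel : chkNab (4, 4) 1 [] = true)

lemma nb45 : nabla ((4, 5) : Letter 6) (evP 12 (unps xS)) = 0 :=
  chkNab_spec z173_ok (by decide +kernel : chkNab (4, 5) 1 z173 = true)

lemma nb52 : nabla ((5, 2) : Letter 6) (evP 12 (unps xS)) = 0 :=
  chkNab_spec z175_ok (by decide +kernel : chkNab (5, 2) (-1) z175 = true)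

lemma nb53 : nabla ((5, 3) : Letter 6) (evP 12 (unps xS)) = 0 :=
  chkNab_spec z177_ok (by decide +kernel : chkNab (5, 3) (-1) z177 = true)

lemma nb54 : nabla ((5, 4) : Letter 6) (evP 12 (unps xS)) = 0 :=
  chkNab_spec z173_ok (by decide +kernel : chkNab (5, 4) (-1) z173 = true)

lemma nb55 : nabla ((5, 5) : Letter 6) (evP 12 (unps xS)) = 0 :=
  chkNab_spec evP_unps_nil (by decide +kernel : chkNab (5, 5) 1 [] = true)

lemma nb_all : ∀ e : Letter 6, 2 ≤ e.1 → 2 ≤ e.2 → nabla e (evP 12 (unps xS)) = 0 := by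
  rintro ⟨i, j⟩ hi hj
  have key : ∀ y : Fin 6, 2 ≤ y → y = 2 ∨ y = 3 ∨ y = 4 ∨ y = 5 := by decide
  rcases key i hi with rfl | rfl | rfl | rfl <;> rcases key j hj with rfl | rfl | rfl | rfl
  · exact nb22
  · exact nb23
  · exact nb24
  · exact nb25
  · exact nb32
  · exact nb33
  · exact nb34
  · exact nb35
  · exact nb42
  · exact nb43
  · exact nb44
  · exact nb45
  · exact nb52
  · exact nb53
  · exact nb54
  · exact nb55

/-- the test sequence for `Ω` -/
def vOm : List (Letter 6) := [(3, 5), (3, 4), (4, 5), (2, 3), (3, 5), (3, 4), (2, 4), (4, 5), (3, 4), (2, 5), (2, 3), (3, 4)]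

lemma vOm_ok : iterOK vOm [(1, 91548624855329)] = true := by decide +kernel

lemma vOm_val : nrm 4 (iterN vOm [(1, 91548624855329)]) = [(1, 0)] := by decide +kernel

/-- The key identity. -/
theorem evP_xS : evP 12 (unps xS) = 0 := by
  have h1 : evP vOm.length [(1, 91548624855329)] * evP 12 (unps xS) = 0 := by
    rw [xS_eq, evP_cons, evP_nil, add_zero, one_smul]
    exact Om_x2
  have h2 := iter_spec nb_all vOm _ vOm_ok h1
  rw [← evP_nrm 0 4, vOm_val, evP_cons, evP_nil, add_zero, one_smul, evc_zero, one_mul] at h2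
  exact h2

end Pool.Agent.Lib.MP_9e57f8_al
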